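import Mathlib
import Pool.Agent.Helper90.UN.Defs

/-!
# Hopf algebras built from `C` by extensions with semisimple action: definitions

`adj k b x = ∑ b₁ x S(b₂)` is the left adjoint action of `B` on itself
(`Pool/Agent/Helper90/UN/Defs.lean`).
-/

set_option autoImplicit false

open Pool.Agent.Helper90.UN

namespace Pool.Agent.Helper56.SS

universe u

/-- The sequence of Hopf algebras `k → A → B → C → k` is exact: `ι` is injective, `π` is surjective
and the kernel of `π` is the left ideal generated by the image of the augmentation ideal of `A`.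
(This is implied by the usual definition, which also asks that `ι(A)` is stable under the adjoint
actions of `B`.) -/
structure HopfExact (k : Type u) [Field k] {A B C : Type u} [Ring A] [Ring B] [Ring C]
    [HopfAlgebra k A] [HopfAlgebra k B] [HopfAlgebra k C] (ι : A →ₐc[k] B) (π : B →ₐc[k] C) :
    Prop where
  inj : Function.Injective ι
  surj : Function.Surjective π
  ker : ∀ b : B, π b = 0 ↔
    b ∈ Ideal.span (ι '' {a : A | Coalgebra.counit (R := k) a = 0})

/-- `B` acts on `ι(A)` through the quotient Hopf algebra `p : B → D`: `p` is surjective and all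
elements of its kernel act by zero on `ι(A)` in the adjoint action. -/
structure ActsThrough (k : Type u) [Field k] {A B D : Type u} [Ring A] [Ring B] [Ring D]
    [HopfAlgebra k A] [HopfAlgebra k B] [HopfAlgebra k D] (ι : A →ₐc[k] B) (p : B →ₐc[k] D) :
    Prop where
  surj : Function.Surjective p
  act : ∀ b : B, p b = 0 → ∀ a : A, adj k b (ι a) = 0

/-- `Steps k C B`: the Hopf algebra `B` is reached from the Hopf algebra `C` by finitely many steps
of the following kinds. -/
inductive Steps (k : Type u) [Field k] (C : Type u) [Ring C] [HopfAlgebra k C] :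
    (B : Type u) → [Ring B] → [HopfAlgebra k B] → Prop
  /-- no step -/
  | refl : Steps k C C
  /-- from `B'` to `B` in an exact sequence `A → B → B'`, if `B` acts on `A` through a semisimple
  quotient Hopf algebra `D` -/
  | act {A B B' D : Type u} [Ring A] [Ring B] [Ring B'] [Ring D] [HopfAlgebra k A]
      [HopfAlgebra k B] [HopfAlgebra k B'] [HopfAlgebra k D] [IsSemisimpleRing D]
      (ι : A →ₐc[k] B) (π : B →ₐc[k] B') (p : B →ₐc[k] D) (hex : HopfExact k ι π)
      (hp : ActsThrough k ι p) (h : Steps k C B') : Steps k C B
  /-- from `B'` to `B` in an exact sequence `A → B → B'`, if `A` is semisimple -/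
  | ker {A B B' : Type u} [Ring A] [Ring B] [Ring B'] [HopfAlgebra k A]
      [HopfAlgebra k B] [HopfAlgebra k B'] [IsSemisimpleRing A] (ι : A →ₐc[k] B) (π : B →ₐc[k] B')
      (hex : HopfExact k ι π) (h : Steps k C B') : Steps k C B
  /-- from `A` to `B` in an exact sequence `A → B → D`, if `D` is semisimple -/
  | quot {A B D : Type u} [Ring A] [Ring B] [Ring D] [HopfAlgebra k A]
      [HopfAlgebra k B] [HopfAlgebra k D] [IsSemisimpleRing D] (ι : A →ₐc[k] B) (π : B →ₐc[k] D)
      (hex : HopfExact k ι π) (h : Steps k C A) : Steps k C B
  /-- from a finite-dimensional Hopf algebra `B'` to a Hopf subalgebra `B` -/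
  | sub {B B' : Type u} [Ring B] [Ring B'] [HopfAlgebra k B] [HopfAlgebra k B']
      [Module.Finite k B'] (j : B →ₐc[k] B') (hj : Function.Injective j) (h : Steps k C B') :
      Steps k C B

end Pool.Agent.Helper56.SS
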