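import Pool.Agent.Helper56.SS.Sec
import Pool.Agent.Helper90.UN.Main

/-!
# The Hopf centralizer

Let `ι : A → B` be a homomorphism of Hopf algebras. The Hopf centralizer `HC ι` is the set of all
`b ∈ B` such that `Δ²(b)` commutes with `1 ⊗ ι(a) ⊗ 1` for all `a ∈ A`, or equivalently, such that
all elements `f(b₁) b₂ g(b₃)` commute with `ι(A)`. For finite-dimensional `B` this is a Hopf
subalgebra.
-/

set_option linter.unusedSectionVars false
set_option autoImplicit false

open scoped TensorProduct
open WithConv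
open Pool.Agent.Helper59.FG Pool.Agent.Helper90.FC Pool.Agent.Helper90.UN

namespace Pool.Agent.Helper56.SS

universe u

section

variable {k : Type u} [Field k] {B : Type u} [Ring B] [HopfAlgebra k B]

/-- `f(b₁) b₂` -/
noncomputable def Lf (f : B →ₗ[k] k) : B →ₗ[k] B :=
  (TensorProduct.lid k B).toLinearMap ∘ₗ f.rTensor B ∘ₗ Coalgebra.comul

/-- `b₁ g(b₂)` -/
noncomputable def Rg (g : B →ₗ[k] k) : B →ₗ[k] B :=
  (TensorProduct.rid k B).toLinearMap ∘ₗ g.lTensor B ∘ₗ Coalgebra.comul

theorem Lf_apply (f : B →ₗ[k] k) (b : B) :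
    Lf f b = TensorProduct.lid k B (f.rTensor B (Coalgebra.comul (R := k) b)) := rfl

theorem Rg_apply (g : B →ₗ[k] k) (b : B) :
    Rg g b = TensorProduct.rid k B (g.lTensor B (Coalgebra.comul (R := k) b)) := rfl

theorem comul_Lf (f : B →ₗ[k] k) (b : B) :
    Coalgebra.comul (R := k) (Lf f b) = (Lf f).rTensor B (Coalgebra.comul (R := k) b) := by
  have h1 : ∀ t : B ⊗[k] B, Coalgebra.comul (R := k) (TensorProduct.lid k B (f.rTensor B t)) =
      TensorProduct.lid k (B ⊗[k] B) (f.rTensor (B ⊗[k] B)
        ((Coalgebra.comul (R := k)).lTensor B t)) := by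
    intro t
    induction t with
    | zero => simp
    | add x y hx hy => simp only [map_add, hx, hy]
    | tmul x y => simp
  have h2 : ∀ t : B ⊗[k] B, TensorProduct.lid k (B ⊗[k] B) (f.rTensor (B ⊗[k] B)
      (TensorProduct.assoc k B B B ((Coalgebra.comul (R := k)).rTensor B t))) =
        (Lf f).rTensor B t := by
    intro t
    induction t with
    | zero => simp
    | add x y hx hy => simp only [map_add, hx, hy]
    | tmul x y =>
      rw [LinearMap.rTensor_tmul, LinearMap.rTensor_tmul, Lf_apply]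
      induction Coalgebra.comul (R := k) x with
      | zero => simp
      | add s t hs ht => simp only [TensorProduct.add_tmul, map_add, hs, ht]
      | tmul u v => simp [TensorProduct.smul_tmul']
  rw [Lf_apply, h1, ← Coalgebra.coassoc_apply, h2]

theorem comul_Rg (g : B →ₗ[k] k) (b : B) :
    Coalgebra.comul (R := k) (Rg g b) = (Rg g).lTensor B (Coalgebra.comul (R := k) b) := by
  have h1 : ∀ t : B ⊗[k] B, Coalgebra.comul (R := k) (TensorProduct.rid k B (g.lTensor B t)) =
      TensorProduct.rid k (B ⊗[k] B) (g.lTensor (B ⊗[k] B)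
        ((Coalgebra.comul (R := k)).rTensor B t)) := by
    intro t
    induction t with
    | zero => simp
    | add x y hx hy => simp only [map_add, hx, hy]
    | tmul x y => simp
  have h2 : ∀ t : B ⊗[k] B, TensorProduct.rid k (B ⊗[k] B) (g.lTensor (B ⊗[k] B)
      ((TensorProduct.assoc k B B B).symm ((Coalgebra.comul (R := k)).lTensor B t))) =
        (Rg g).lTensor B t := by
    intro t
    induction t with
    | zero => simp
    | add x y hx hy => simp only [map_add, hx, hy]
    | tmul x y =>
      rw [LinearMap.lTensor_tmul, LinearMap.lTensor_tmul, Rg_apply]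
      induction Coalgebra.comul (R := k) y with
      | zero => simp
      | add s t hs ht => simp only [TensorProduct.tmul_add, map_add, hs, ht]
      | tmul u v => simp
  rw [Rg_apply, h1, ← Coalgebra.coassoc_symm_apply, h2]

theorem Lf_Rg (f g : B →ₗ[k] k) (b : B) : Lf f (Rg g b) = Rg g (Lf f b) := by
  have h : ∀ t : B ⊗[k] B, TensorProduct.lid k B (f.rTensor B ((Rg g).lTensor B t)) =
      Rg g (TensorProduct.lid k B (f.rTensor B t)) := by
    intro t
    induction t with
    | zero => simp
    | add x y hx hy => simp only [map_add, hx, hy]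
    | tmul x y => simp
  rw [Lf_apply, comul_Rg, h, ← Lf_apply]

/-- composition of `Lf` -/
theorem Lf_Lf (f f' : B →ₗ[k] k) : ∃ f'' : B →ₗ[k] k, ∀ b, Lf f (Lf f' b) = Lf f'' b := by
  refine ⟨LinearMap.mul' k k ∘ₗ TensorProduct.map f' f ∘ₗ Coalgebra.comul, fun b => ?_⟩
  have h : ∀ t : B ⊗[k] B, TensorProduct.lid k B (f.rTensor B ((Lf f').rTensor B t)) =
      TensorProduct.lid k B ((LinearMap.mul' k k ∘ₗ TensorProduct.map f' f ∘ₗ
        Coalgebra.comul).rTensor B t) := by
    intro t
    induction t with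
    | zero => simp
    | add x y hx hy => simp only [map_add, hx, hy]
    | tmul x y =>
      simp only [LinearMap.rTensor_tmul, TensorProduct.lid_tmul, LinearMap.comp_apply, Lf_apply]
      congr 1
      induction Coalgebra.comul (R := k) x with
      | zero => simp
      | add s t hs ht => simp only [map_add, hs, ht]
      | tmul u v => simp
  rw [Lf_apply, comul_Lf, h, ← Lf_apply]

theorem Rg_Rg (g g' : B →ₗ[k] k) : ∃ g'' : B →ₗ[k] k, ∀ b, Rg g (Rg g' b) = Rg g'' b := by
  refine ⟨LinearMap.mul' k k ∘ₗ TensorProduct.map g g' ∘ₗ Coalgebra.comul, fun b => ?_⟩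
  have h : ∀ t : B ⊗[k] B, TensorProduct.rid k B (g.lTensor B ((Rg g').lTensor B t)) =
      TensorProduct.rid k B ((LinearMap.mul' k k ∘ₗ TensorProduct.map g g' ∘ₗ
        Coalgebra.comul).lTensor B t) := by
    intro t
    induction t with
    | zero => simp
    | add x y hx hy => simp only [map_add, hx, hy]
    | tmul x y =>
      simp only [LinearMap.lTensor_tmul, TensorProduct.rid_tmul, LinearMap.comp_apply, Rg_apply]
      congr 1
      induction Coalgebra.comul (R := k) y with
      | zero => simp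
      | add s t hs ht => simp only [map_add, hs, ht]
      | tmul u v => simp [mul_comm]
  rw [Rg_apply, comul_Rg, h, ← Rg_apply]

theorem Lf_counit (b : B) : Lf (Coalgebra.counit (R := k)) b = b := by
  rw [Lf_apply, Coalgebra.rTensor_counit_comul, TensorProduct.lid_tmul, one_smul]

theorem Rg_counit (b : B) : Rg (Coalgebra.counit (R := k)) b = b := by
  rw [Rg_apply, Coalgebra.lTensor_counit_comul, TensorProduct.rid_tmul, one_smul]

/-! ### tensors and slices -/

theorem sep {V : Type u} [AddCommGroup V] [Module k V] (v w : V)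
    (h : ∀ f : V →ₗ[k] k, f v = f w) : v = w := by
  refine sub_eq_zero.1 ((Module.forall_dual_apply_eq_zero_iff k (v - w)).1 fun f => ?_)
  rw [map_sub, h f, sub_self]

theorem tens_ext' {V W : Type u} [AddCommGroup V] [Module k V] [AddCommGroup W] [Module k W]
    [Module.Finite k W] (t t' : V ⊗[k] W)
    (h : ∀ g : W →ₗ[k] k, TensorProduct.rid k V (g.lTensor V t) =
      TensorProduct.rid k V (g.lTensor V t')) : t = t' := by
  apply (TensorProduct.comm k V W).injective
  have h1 : ∀ (g : W →ₗ[k] k) (t : V ⊗[k] W), TensorProduct.lid k V (g.rTensor V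
      (TensorProduct.comm k V W t)) = TensorProduct.rid k V (g.lTensor V t) := by
    intro g t
    induction t with
    | zero => simp
    | add x y hx hy => simp only [map_add, hx, hy]
    | tmul x y => simp
  refine tens_ext _ _ fun g => ?_
  rw [h1, h1, h]

/-- A tensor is in `S ⊗ S` if all its slices are in `S`. -/
theorem mem_range_of_slices [Module.Finite k B] (S : Submodule k B) (t : B ⊗[k] B)
    (hl : ∀ f : B →ₗ[k] k, TensorProduct.lid k B (f.rTensor B t) ∈ S)
    (hr : ∀ g : B →ₗ[k] k, TensorProduct.rid k B (g.lTensor B t) ∈ S) :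
    t ∈ LinearMap.range (TensorProduct.map S.subtype S.subtype) := by
  obtain ⟨q, hq⟩ := S.subtype.exists_leftInverse_of_injective S.ker_subtype
  have hq' : ∀ x (hx : x ∈ S), S.subtype (q x) = x := by
    intro x hx
    have h1 : q x = ⟨x, hx⟩ := LinearMap.congr_fun hq ⟨x, hx⟩
    rw [h1]
    rfl
  have e1 : (S.subtype ∘ₗ q).lTensor B t = t := by
    refine tens_ext _ _ fun f => ?_
    have h1 : ∀ t : B ⊗[k] B, TensorProduct.lid k B (f.rTensor B ((S.subtype ∘ₗ q).lTensor B t)) =
        S.subtype (q (TensorProduct.lid k B (f.rTensor B t))) := by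
      intro t
      induction t with
      | zero => simp
      | add x y hx hy => simp only [map_add, hx, hy]
      | tmul x y => simp
    rw [h1, hq' _ (hl f)]
  have e2 : (S.subtype ∘ₗ q).rTensor B t = t := by
    refine tens_ext' _ _ fun g => ?_
    have h1 : ∀ t : B ⊗[k] B, TensorProduct.rid k B (g.lTensor B ((S.subtype ∘ₗ q).rTensor B t)) =
        S.subtype (q (TensorProduct.rid k B (g.lTensor B t))) := by
      intro t
      induction t with
      | zero => simp
      | add x y hx hy => simp only [map_add, hx, hy]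
      | tmul x y => simp
    rw [h1, hq' _ (hr g)]
  refine ⟨TensorProduct.map q q t, ?_⟩
  have h3 : TensorProduct.map S.subtype S.subtype (TensorProduct.map q q t) =
      (S.subtype ∘ₗ q).lTensor B ((S.subtype ∘ₗ q).rTensor B t) := by
    generalize t = t'
    induction t' with
    | zero => simp
    | add x y hx hy => simp only [map_add, hx, hy]
    | tmul x y => simp
  rw [h3, e2, e1]

/-! ### the Hopf centralizer -/

variable (k B) in
/-- `Δ²` -/
noncomputable def Dl2 : B →ₐ[k] B ⊗[k] (B ⊗[k] B) :=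
  (Algebra.TensorProduct.map (AlgHom.id k B) (Bialgebra.comulAlgHom k B)).comp
    (Bialgebra.comulAlgHom k B)

/-- the slice in the first and the third factor -/
noncomputable def sl2 (f g : B →ₗ[k] k) : B ⊗[k] (B ⊗[k] B) →ₗ[k] B :=
  (TensorProduct.rid k B).toLinearMap ∘ₗ g.lTensor B ∘ₗ
    (TensorProduct.lid k (B ⊗[k] B)).toLinearMap ∘ₗ f.rTensor (B ⊗[k] B)

theorem sl2_tmul (f g : B →ₗ[k] k) (x y z : B) :
    sl2 f g (x ⊗ₜ (y ⊗ₜ z)) = f x • (g z • y) := by
  simp [sl2]

theorem sl2_Dl2 (f g : B →ₗ[k] k) (b : B) : sl2 f g (Dl2 k B b) = Rg g (Lf f b) := by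
  have h1 : ∀ t : B ⊗[k] B, TensorProduct.lid k (B ⊗[k] B) (f.rTensor (B ⊗[k] B)
      (Algebra.TensorProduct.map (AlgHom.id k B) (Bialgebra.comulAlgHom k B) t)) =
      Coalgebra.comul (R := k) (TensorProduct.lid k B (f.rTensor B t)) := by
    intro t
    induction t with
    | zero => simp
    | add x y hx hy => simp only [map_add, hx, hy]
    | tmul x y => simp
  exact congrArg (fun t => TensorProduct.rid k B (g.lTensor B t))
    (h1 (Coalgebra.comul (R := k) b))

theorem sl2_mul_mid (f g : B →ₗ[k] k) (x : B) (T : B ⊗[k] (B ⊗[k] B)) :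
    sl2 f g (T * (1 ⊗ₜ (x ⊗ₜ 1))) = sl2 f g T * x := by
  induction T with
  | zero => simp
  | add s t hs ht => rw [add_mul, map_add, map_add, hs, ht, add_mul]
  | tmul u T =>
    induction T with
    | zero => simp
    | add s t hs ht =>
      rw [TensorProduct.tmul_add, add_mul, map_add, map_add, hs, ht, add_mul]
    | tmul v w =>
      rw [Algebra.TensorProduct.tmul_mul_tmul, Algebra.TensorProduct.tmul_mul_tmul, sl2_tmul,
        sl2_tmul, mul_one, mul_one, smul_mul_assoc, smul_mul_assoc]

theorem sl2_mid_mul (f g : B →ₗ[k] k) (x : B) (T : B ⊗[k] (B ⊗[k] B)) :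
    sl2 f g ((1 ⊗ₜ (x ⊗ₜ 1)) * T) = x * sl2 f g T := by
  induction T with
  | zero => simp
  | add s t hs ht => rw [mul_add, map_add, map_add, hs, ht, mul_add]
  | tmul u T =>
    induction T with
    | zero => simp
    | add s t hs ht =>
      rw [TensorProduct.tmul_add, mul_add, map_add, map_add, hs, ht, mul_add]
    | tmul v w =>
      rw [Algebra.TensorProduct.tmul_mul_tmul, Algebra.TensorProduct.tmul_mul_tmul, sl2_tmul,
        sl2_tmul, one_mul, one_mul, mul_smul_comm, mul_smul_comm]

theorem sl2_ext [Module.Finite k B] (T T' : B ⊗[k] (B ⊗[k] B))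
    (h : ∀ f g : B →ₗ[k] k, sl2 f g T = sl2 f g T') : T = T' :=
  tens_ext _ _ fun f => tens_ext' _ _ fun g => h f g

variable {A : Type u} [Ring A] [HopfAlgebra k A] (ι : A →ₐc[k] B)

/-- The Hopf centralizer. -/
noncomputable def HC : Subalgebra k B :=
  (Subalgebra.centralizer k (Set.range fun a : A => ((1 : B) ⊗ₜ[k] (ι a ⊗ₜ[k] (1 : B))))).comap
    (Dl2 k B)

theorem mem_HC [Module.Finite k B] (b : B) : b ∈ HC ι ↔
    ∀ (f g : B →ₗ[k] k) (a : A), Rg g (Lf f b) * ι a = ι a * Rg g (Lf f b) := by
  unfold HC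
  rw [Subalgebra.mem_comap, Subalgebra.mem_centralizer_iff]
  constructor
  · intro h f g a
    have h1 := congrArg (sl2 f g) (h _ ⟨a, rfl⟩)
    rw [sl2_mid_mul, sl2_mul_mid, sl2_Dl2] at h1
    exact h1.symm
  · rintro h _ ⟨a, rfl⟩
    refine sl2_ext _ _ fun f g => ?_
    rw [sl2_mid_mul, sl2_mul_mid, sl2_Dl2]
    exact (h f g a).symm

theorem HC_Lf [Module.Finite k B] {b : B} (hb : b ∈ HC ι) (f : B →ₗ[k] k) : Lf f b ∈ HC ι := by
  rw [mem_HC] at hb ⊢
  intro f' g a
  obtain ⟨f'', h⟩ := Lf_Lf f' f
  rw [h]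
  exact hb f'' g a

theorem HC_Rg [Module.Finite k B] {b : B} (hb : b ∈ HC ι) (g : B →ₗ[k] k) : Rg g b ∈ HC ι := by
  rw [mem_HC] at hb ⊢
  intro f g' a
  obtain ⟨g'', h⟩ := Rg_Rg g' g
  rw [Lf_Rg, h]
  exact hb f g'' a

/-- The elements of the Hopf centralizer commute with `ι(A)`. -/
theorem HC_comm [Module.Finite k B] {b : B} (hb : b ∈ HC ι) (a : A) : b * ι a = ι a * b := by
  have h := (mem_HC ι b).1 hb Coalgebra.counit Coalgebra.counit a
  rwa [Lf_counit, Rg_counit] at h

theorem HC_comul [Module.Finite k B] {b : B} (hb : b ∈ HC ι) :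
    Coalgebra.comul (R := k) b ∈ LinearMap.range
      (TensorProduct.map (HC ι).val.toLinearMap (HC ι).val.toLinearMap) :=
  mem_range_of_slices (Subalgebra.toSubmodule (HC ι)) _ (fun f => HC_Lf ι hb f)
    (fun g => HC_Rg ι hb g)

/-- A finite-dimensional subbialgebra of a Hopf algebra is closed under the antipode. -/
theorem antipode_mem [Module.Finite k B] (S : Subalgebra k B)
    (hS : ∀ b ∈ S, Coalgebra.comul (R := k) b ∈ LinearMap.range
      (TensorProduct.map S.val.toLinearMap S.val.toLinearMap)) {b : B} (hb : b ∈ S) :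
    HopfAlgebra.antipode k b ∈ S := by
  have hmul : ∀ g h : WithConv (B →ₗ[k] B), (∀ x ∈ S, g.ofConv x ∈ S) →
      (∀ x ∈ S, h.ofConv x ∈ S) → ∀ x ∈ S, (g * h).ofConv x ∈ S := by
    intro g h hg hh x hx
    obtain ⟨t, ht⟩ := hS x hx
    have e : (g * h).ofConv x = LinearMap.mul' k B (TensorProduct.map g.ofConv h.ofConv
        (Coalgebra.comul (R := k) x)) := rfl
    rw [e, ← ht]
    clear ht
    induction t with
    | zero => simp only [map_zero]; exact S.zero_mem
    | add s t hs ht => simp only [map_add]; exact S.add_mem hs ht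
    | tmul u v =>
      rw [TensorProduct.map_tmul, TensorProduct.map_tmul, LinearMap.mul'_apply]
      exact S.mul_mem (hg _ u.2) (hh _ v.2)
  let N : Submodule k (WithConv (B →ₗ[k] B)) :=
    { carrier := {g | ∀ x ∈ S, g.ofConv x ∈ S}
      add_mem' := fun {g h} hg hh x hx => S.add_mem (hg x hx) (hh x hx)
      zero_mem' := fun x _ => S.zero_mem
      smul_mem' := fun c g hg x hx => S.smul_mem (hg x hx) c }
  let E : WithConv (B →ₗ[k] B) := toConv LinearMap.id
  have hE : E ∈ N := fun x hx => hx
  let L : N →ₗ[k] N :=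
    { toFun := fun h => ⟨E * h.1, hmul E h.1 hE h.2⟩
      map_add' := fun g h => Subtype.ext (mul_add _ _ _)
      map_smul' := fun c g => Subtype.ext (mul_smul_comm _ _ _) }
  have hfin : Module.Finite k (WithConv (B →ₗ[k] B)) :=
    Module.Finite.equiv (WithConv.linearEquiv k (B →ₗ[k] B)).symm
  have hinj : Function.Injective L := by
    intro g h hgh
    have h1 : E * g.1 = E * h.1 := congrArg Subtype.val hgh
    have h2 := congrArg (fun w => toConv (HopfAlgebra.antipode k (A := B)) * w) h1
    simp only [← mul_assoc, E, LinearMap.antipode_mul_id, one_mul] at h2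
    exact Subtype.ext h2
  have hsurj : Function.Surjective L := LinearMap.injective_iff_surjective.1 hinj
  have h1N : (1 : WithConv (B →ₗ[k] B)) ∈ N := fun x _ => S.algebraMap_mem _
  obtain ⟨h, hh⟩ := hsurj ⟨1, h1N⟩
  have h3 : E * h.1 = 1 := congrArg Subtype.val hh
  have h4 : h.1 = toConv (HopfAlgebra.antipode k (A := B)) := by
    have h5 := congrArg (fun w => toConv (HopfAlgebra.antipode k (A := B)) * w) h3
    simp only [← mul_assoc, E, LinearMap.antipode_mul_id, one_mul, mul_one] at h5
    exact h5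
  have h6 := h.2 b hb
  rw [h4] at h6
  exact h6

/-- The Hopf centralizer is a Hopf subalgebra. -/
theorem exists_HC [Module.Finite k B] :
    ∃ (B1 : Type u) (_ : Ring B1) (_ : HopfAlgebra k B1) (j : B1 →ₐc[k] B),
      Function.Injective j ∧ Set.range j = (HC ι : Set B) :=
  exists_subHopf_ring (HC ι) (fun _ hb => HC_comul ι hb)
    (fun _ hb => antipode_mem (HC ι) (fun _ hb => HC_comul ι hb) hb)

/-- If `A` is commutative then `ι(A)` is contained in the Hopf centralizer. -/
theorem mem_HC_of_comm [Module.Finite k B] (hA : ∀ a a' : A, a * a' = a' * a) (x : A) :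
    ι x ∈ HC ι := by
  have hL : ∀ (f : B →ₗ[k] k) (x : A), ∃ y : A, Lf f (ι x) = ι y := by
    intro f x
    refine ⟨Lf (f ∘ₗ (ι : A →ₗ[k] B)) x, ?_⟩
    have h1 : TensorProduct.map (ι : A →ₗ[k] B) (ι : A →ₗ[k] B) (Coalgebra.comul (R := k) x) =
        Coalgebra.comul (R := k) (ι x) := CoalgHomClass.map_comp_comul_apply ι x
    rw [Lf_apply, ← h1, Lf_apply]
    generalize Coalgebra.comul (R := k) x = t
    induction t with
    | zero => simp
    | add x y hx hy => simp only [map_add, hx, hy]
    | tmul x y => simp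
  have hR : ∀ (g : B →ₗ[k] k) (x : A), ∃ y : A, Rg g (ι x) = ι y := by
    intro g x
    refine ⟨Rg (g ∘ₗ (ι : A →ₗ[k] B)) x, ?_⟩
    have h1 : TensorProduct.map (ι : A →ₗ[k] B) (ι : A →ₗ[k] B) (Coalgebra.comul (R := k) x) =
        Coalgebra.comul (R := k) (ι x) := CoalgHomClass.map_comp_comul_apply ι x
    rw [Rg_apply, ← h1, Rg_apply]
    generalize Coalgebra.comul (R := k) x = t
    induction t with
    | zero => simp
    | add x y hx hy => simp only [map_add, hx, hy]
    | tmul x y => simp
  rw [mem_HC]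
  intro f g a
  obtain ⟨y, hy⟩ := hL f x
  obtain ⟨z, hz⟩ := hR g y
  rw [hy, hz, ← map_mul, ← map_mul, hA]

end

end Pool.Agent.Helper56.SS
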