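import Pool.Agent.Helper56.SS.Act
import Pool.Agent.Helper56.SS.StepsDefs

/-!
# Iterated extensions with semisimple action
-/

set_option linter.unusedSectionVars false
set_option autoImplicit false

open scoped TensorProduct
open WithConv
open Pool.Agent.Helper59.FG Pool.Agent.Helper90.FC Pool.Agent.Helper90.UN

namespace Pool.Agent.Helper56.SS

universe u

section

variable {k : Type u} [Field k] {A B C : Type u} [Ring A] [Ring B] [Ring C] [HopfAlgebra k A]
    [HopfAlgebra k B] [HopfAlgebra k C] [Module.Finite k B]

/-- The quotient by a semisimple normal Hopf subalgebra is a projective module. -/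
theorem proj_quot [IsSemisimpleRing A] (ι : A →ₐc[k] B) (π : B →ₐc[k] C)
    (hex : HopfExact k ι π) :
    Module.Projective B ((res (π : B →ₐ[k] C)).obj (ModuleCat.of C C)) := by
  obtain ⟨e, he1, he2⟩ := exists_int (k := k) (D := A)
  let M := (res (π : B →ₐ[k] C)).obj (ModuleCat.of C C)
  let q : B →ₗ[B] M :=
    { toFun := fun b => (show M from π b)
      map_add' := fun x y => map_add π x y
      map_smul' := fun x y => map_mul π x y }
  have hq : Function.Surjective q := hex.surj
  let m : B →ₗ[B] B := LinearMap.toSpanSingleton B B (ι e)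
  have hm : ∀ b, m b = b * ι e := fun b => rfl
  have hz : ∀ b, π b = 0 → b * ι e = 0 := by
    intro b hb
    have h1 := (hex.ker b).1 hb
    clear hb
    induction h1 using Submodule.span_induction with
    | mem x hx =>
      obtain ⟨a, ha, rfl⟩ := hx
      rw [← map_mul, he2, ha, zero_smul, map_zero]
    | zero => rw [zero_mul]
    | add x y _ _ hx hy => rw [add_mul, hx, hy, add_zero]
    | smul d x _ hx => rw [smul_eq_mul, mul_assoc, hx, mul_zero]
  have hle : LinearMap.ker q ≤ LinearMap.ker m := by
    intro b hb
    rw [LinearMap.mem_ker] at hb ⊢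
    exact hz b hb
  let e1 : (B ⧸ LinearMap.ker q) ≃ₗ[B] M := q.quotKerEquivOfSurjective hq
  let s : M →ₗ[B] B := (LinearMap.ker q).liftQ m hle ∘ₗ e1.symm.toLinearMap
  have hs : ∀ b, s (q b) = b * ι e := by
    intro b
    have h1 : e1.symm (q b) = Submodule.Quotient.mk b := by
      rw [LinearEquiv.symm_apply_eq]
      rfl
    change (LinearMap.ker q).liftQ m hle (e1.symm (q b)) = _
    rw [h1]
    rfl
  have hqs : q ∘ₗ s = LinearMap.id := by
    refine LinearMap.ext fun x => ?_
    obtain ⟨b, rfl⟩ := hq x
    rw [LinearMap.comp_apply, hs, LinearMap.id_apply]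
    change π (b * ι e) = π b
    have h2 : π (ι e) = 1 := by
      have h3 : π (ι e - 1) = 0 := by
        rw [hex.ker]
        refine Ideal.subset_span ⟨e - 1, ?_, ?_⟩
        · change Coalgebra.counit (R := k) (e - 1) = 0
          rw [map_sub, he1, Bialgebra.counit_one, sub_self]
        · rw [map_sub, map_one]
      rw [map_sub, map_one] at h3
      exact sub_eq_zero.1 h3
    rw [map_mul, h2, mul_one]
  exact Module.Projective.of_split s q hqs

/-- Finite generation along extensions by a semisimple kernel. -/
theorem fge_ker [IsSemisimpleRing A] (ι : A →ₐc[k] B) (π : B →ₐc[k] C)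
    (hex : HopfExact k ι π) (h : FGE k C) : FGE k B := by
  have hfC : Module.Finite k C := Module.Finite.of_surjective (π : B →ₗ[k] C) hex.surj
  exact fge_sub (π : B →ₐ[k] C) (aug_of_bialg π) (proj_quot ι π hex) h

/-- Finite generation along extensions with a semisimple quotient. -/
theorem fge_quot [IsSemisimpleRing C] (ι : A →ₐc[k] B) (π : B →ₐc[k] C)
    (hex : HopfExact k ι π) (h : FGE k A) : FGE k B := by
  have hfA : Module.Finite k A := Module.Finite.of_injective (ι : A →ₗ[k] B) hex.inj
  obtain ⟨t, ht⟩ := exists_avg π hex.surj ι fun b hb => (hex.ker b).1 hb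
  exact fge_avg ι hex.inj ht h

end

variable {k : Type u} [Field k]

theorem finite_of_inj {A B : Type u} [Ring A] [Ring B] [HopfAlgebra k A] [HopfAlgebra k B]
    [Module.Finite k B] (ι : A →ₐc[k] B) (hi : Function.Injective ι) : Module.Finite k A :=
  Module.Finite.of_injective (ι : A →ₗ[k] B) hi

/-- The FGC property passes along the steps. -/
theorem steps_fgc {C : Type u} [Ring C] [HopfAlgebra k C] (hC : FGC k C) {B : Type u} [Ring B]
    [HopfAlgebra k B] (h : Steps k C B) (hB : Module.Finite k B) : FGC k B := by
  induction h with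
  | refl => exact hC
  | act ι π p hex hp h ih =>
    have hf := finite_of_surj' π hex.surj
    exact fgc_of_fge (fge_act ι π p hex.inj hex.surj hp.surj hex.ker hp.act (fge_of_fgc (ih hf)))
  | ker ι π hex h ih =>
    have hf := finite_of_surj' π hex.surj
    exact fgc_of_fge (fge_ker ι π hex (fge_of_fgc (ih hf)))
  | quot ι π hex h ih =>
    have hf := finite_of_inj ι hex.inj
    exact fgc_of_fge (fge_quot ι π hex (fge_of_fgc (ih hf)))
  | sub j hj h ih =>
    exact fgc_of_fge (fge_hopfSub j hj (fge_of_fgc (ih inferInstance)))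

end Pool.Agent.Helper56.SS
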