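import Pool.Agent.Helper56.SS.Ker
import Pool.Agent.Helper90.FC.Iter

/-!
# Extensions with commutative kernel on which `B` acts through a semisimple quotient
-/

set_option linter.unusedSectionVars false
set_option autoImplicit false

open scoped TensorProduct
open WithConv
open Pool.Agent.Helper59.FG Pool.Agent.Helper90.FC Pool.Agent.Helper90.UN

namespace Pool.Agent.Helper56.SS

universe u

section

variable {k : Type u} [Field k]

/-- Semisimple Hopf algebras have normalised integrals. -/
theorem exists_int {D : Type u} [Ring D] [HopfAlgebra k D] [IsSemisimpleRing D] :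
    ∃ t : D, Coalgebra.counit (R := k) t = 1 ∧
      ∀ c : D, c * t = Coalgebra.counit (R := k) c • t := by
  let I : Ideal D := RingHom.ker (Bialgebra.counitAlgHom k D)
  have hI : ∀ x, x ∈ I ↔ Coalgebra.counit (R := k) x = 0 := fun x => Iff.rfl
  obtain ⟨J, hJ⟩ := exists_isCompl (α := Submodule D D) I
  obtain ⟨x, hx, t, ht, hxt⟩ := Submodule.mem_sup.1
    (show (1 : D) ∈ I ⊔ J by rw [hJ.sup_eq_top]; trivial)
  have ht1 : Coalgebra.counit (R := k) t = 1 := by
    have h1 := congrArg (Coalgebra.counit (R := k)) hxt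
    rw [map_add, (hI x).1 hx, zero_add, Bialgebra.counit_one] at h1
    exact h1
  refine ⟨t, ht1, fun c => ?_⟩
  have h1 : c * t - Coalgebra.counit (R := k) c • t ∈ I := by
    rw [hI, map_sub, Bialgebra.counit_mul, map_smul, ht1, smul_eq_mul, sub_self]
  have h2 : c * t - Coalgebra.counit (R := k) c • t ∈ J := by
    have e : Coalgebra.counit (R := k) c • t =
        (algebraMap k D (Coalgebra.counit (R := k) c)) • t := by
      rw [algebraMap_smul]
    rw [e]
    exact J.sub_mem (J.smul_mem c ht) (J.smul_mem _ ht)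
  exact sub_eq_zero.1 ((Submodule.disjoint_def.1 hJ.disjoint) _ h1 h2)

/-- Averaging elements for a semisimple quotient. -/
theorem exists_avg {B D K : Type u} [Ring B] [Ring D] [Ring K] [HopfAlgebra k B] [HopfAlgebra k D]
    [HopfAlgebra k K] [IsSemisimpleRing D] (p : B →ₐc[k] D) (hp : Function.Surjective p)
    (j : K →ₐc[k] B) (hker : ∀ b, p b = 0 → b ∈ Jd j) : ∃ t : B, Avg j t := by
  obtain ⟨t', h1, h2⟩ := exists_int (k := k) (D := D)
  obtain ⟨t, rfl⟩ := hp t'
  refine ⟨t, ⟨?_, fun b => hker _ ?_⟩⟩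
  · rw [← Pool.Agent.Helper90.UN.map_counit p t, h1]
  · rw [map_sub, map_mul, map_smul, h2, Pool.Agent.Helper90.UN.map_counit p, sub_self]

/-- Homomorphisms of Hopf algebras with values in a Hopf subalgebra. -/
theorem exists_lift {A B K : Type u} [Ring A] [Ring B] [Ring K] [HopfAlgebra k A]
    [HopfAlgebra k B] [HopfAlgebra k K] (j : K →ₐc[k] B) (hj : Function.Injective j)
    (f : A →ₐc[k] B) (h : ∀ a, f a ∈ Set.range j) : ∃ g : A →ₐc[k] K, ∀ a, j (g a) = f a := by
  choose g hg using h
  let g0 : A →ₐ[k] K :=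
    { toFun := g
      map_one' := hj (by rw [hg, map_one, map_one])
      map_mul' := fun x y => hj (by rw [hg, map_mul, map_mul, hg, hg])
      map_zero' := hj (by rw [hg, map_zero, map_zero])
      map_add' := fun x y => hj (by rw [hg, map_add, map_add, hg, hg])
      commutes' := fun r => hj (by rw [hg, AlgHomClass.commutes, AlgHomClass.commutes]) }
  have hinj : Function.Injective (TensorProduct.map (j : K →ₗ[k] B) (j : K →ₗ[k] B)) :=
    TensorProduct.map_injective_of_flat_flat _ _ hj hj
  refine ⟨BialgHom.ofAlgHom g0 ?_ ?_, hg⟩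
  · refine AlgHom.ext fun a => ?_
    change Coalgebra.counit (R := k) (g a) = Coalgebra.counit (R := k) a
    rw [← Pool.Agent.Helper90.UN.map_counit j, hg, Pool.Agent.Helper90.UN.map_counit f]
  · refine AlgHom.ext fun a => hinj ?_
    change TensorProduct.map (j : K →ₗ[k] B) (j : K →ₗ[k] B)
      (TensorProduct.map g0.toLinearMap g0.toLinearMap (Coalgebra.comul (R := k) a)) =
      TensorProduct.map (j : K →ₗ[k] B) (j : K →ₗ[k] B) (Coalgebra.comul (R := k) (g a))
    have h1 : TensorProduct.map (j : K →ₗ[k] B) (j : K →ₗ[k] B) (Coalgebra.comul (R := k) (g a)) =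
        Coalgebra.comul (R := k) (j (g a)) := CoalgHomClass.map_comp_comul_apply j (g a)
    have h2 : TensorProduct.map (f : A →ₗ[k] B) (f : A →ₗ[k] B) (Coalgebra.comul (R := k) a) =
        Coalgebra.comul (R := k) (f a) := CoalgHomClass.map_comp_comul_apply f a
    have h3 : (j : K →ₗ[k] B) ∘ₗ g0.toLinearMap = (f : A →ₗ[k] B) := LinearMap.ext hg
    rw [h1, hg, ← h2, ← LinearMap.comp_apply, ← TensorProduct.map_comp, h3]

/-- `B ι(A⁺) ⊆ ι(A⁺) B` for a normal Hopf subalgebra. -/
theorem left_le_right {A B : Type u} [Ring A] [Ring B] [HopfAlgebra k A] [HopfAlgebra k B]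
    (ι : A →ₐc[k] B) (hn : ∀ (b : B) (a : A), adj k b (ι a) ∈ Set.range ι) (y : B)
    (hy : y ∈ Ideal.span (ι '' {a : A | Coalgebra.counit (R := k) a = 0})) :
    y ∈ Submodule.span k {z : B | ∃ (a : A) (b : B), Coalgebra.counit (R := k) a = 0 ∧
      z = ι a * b} := by
  set W := Submodule.span k {z : B | ∃ (a : A) (b : B), Coalgebra.counit (R := k) a = 0 ∧
      z = ι a * b} with hW
  have hmem : ∀ (a : A) (b : B), Coalgebra.counit (R := k) a = 0 → ι a * b ∈ W :=
    fun a b ha => Submodule.subset_span ⟨a, b, ha, rfl⟩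
  have hl : ∀ (b : B) (a : A) (b' : B), Coalgebra.counit (R := k) a = 0 →
      b * (ι a * b') ∈ W := by
    intro b a b' ha
    have hz : Coalgebra.counit (R := k) (ι a) = 0 := by
      rw [Pool.Agent.Helper90.UN.map_counit ι, ha]
    have h1 := LinearMap.congr_fun (congrArg ofConv (adR_mul_id (k := k) (ι a))) b
    have h2 : ∀ t : B ⊗[k] B, LinearMap.mul' k B (TensorProduct.map (adR k (ι a))
        LinearMap.id t) * b' ∈ W := by
      intro t
      induction t with
      | zero => simp only [map_zero, zero_mul]; exact W.zero_mem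
      | add x y hx hy => simp only [map_add, add_mul]; exact W.add_mem hx hy
      | tmul x y =>
        rw [TensorProduct.map_tmul, LinearMap.mul'_apply, mul_assoc, adR_apply]
        obtain ⟨a', ha'⟩ := hn x a
        rw [← ha']
        refine hmem _ _ ?_
        rw [← Pool.Agent.Helper90.UN.map_counit ι, ha']
        exact counit_adj hz x
    have h3 : b * ι a = LinearMap.mul' k B (TensorProduct.map (adR k (ι a))
        LinearMap.id (Coalgebra.comul (R := k) b)) := h1.symm
    rw [← mul_assoc, h3]
    exact h2 _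
  induction hy using Submodule.span_induction with
  | mem x hx =>
    obtain ⟨a, ha, rfl⟩ := hx
    have h1 := hmem a 1 ha
    rwa [mul_one] at h1
  | zero => exact W.zero_mem
  | add x y _ _ hx hy => exact W.add_mem hx hy
  | smul b x hx' hx =>
    clear hx'
    rw [smul_eq_mul]
    induction hx using Submodule.span_induction with
    | mem x hx =>
      obtain ⟨a, b', ha, rfl⟩ := hx
      exact hl b a b' ha
    | zero => rw [mul_zero]; exact W.zero_mem
    | add x y _ _ hx hy => rw [mul_add]; exact W.add_mem hx hy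
    | smul c x _ hx => rw [mul_smul_comm]; exact W.smul_mem c hx

/-- The intersection of `B ι(A⁺)` with a Hopf subalgebra in which `A` is central. -/
theorem inter {A B K : Type u} [Ring A] [Ring B] [Ring K] [HopfAlgebra k A] [HopfAlgebra k B]
    [HopfAlgebra k K] [Module.Finite k K] (ι : A →ₐc[k] B)
    (hn : ∀ (b : B) (a : A), adj k b (ι a) ∈ Set.range ι) (j : K →ₐc[k] B)
    (hj : Function.Injective j) (ι' : A →ₐc[k] K) (hι : ∀ a, j (ι' a) = ι a)
    (hc : ∀ (a : A) (b : K), ι' a * b = b * ι' a) (x : K)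
    (hx : j x ∈ Ideal.span (ι '' {a : A | Coalgebra.counit (R := k) a = 0})) :
    x ∈ Ideal.span (ι' '' {a : A | Coalgebra.counit (R := k) a = 0}) := by
  obtain ⟨r, hr1, hr2⟩ := exists_retr j hj
  have h1 := left_le_right ι hn _ hx
  have h2 : Submodule.span k {z : B | ∃ (a : A) (b : B), Coalgebra.counit (R := k) a = 0 ∧
      z = ι a * b} ≤ ((Ideal.span (ι' '' {a : A | Coalgebra.counit (R := k) a = 0})).restrictScalars
        k).comap r := by
    rw [Submodule.span_le]
    rintro _ ⟨a, b, ha, rfl⟩
    rw [SetLike.mem_coe, Submodule.mem_comap, ← hι, hr2, hc, Submodule.restrictScalars_mem]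
    exact Ideal.mul_mem_left _ _ (Ideal.subset_span ⟨a, ha, rfl⟩)
  have h3 := h2 h1
  rw [Submodule.mem_comap, hr1, Submodule.restrictScalars_mem] at h3
  exact h3

variable {A B C D : Type u} [Ring A] [Ring B] [Ring C] [Ring D] [HopfAlgebra k A]
    [HopfAlgebra k B] [HopfAlgebra k C] [HopfAlgebra k D] [Module.Finite k B]

/-- Finite generation along extensions with commutative kernel on which `B` acts through a
semisimple quotient `D`. -/
theorem fge_com (ι : A →ₐc[k] B) (π : B →ₐc[k] C) (p : B →ₐc[k] D) [IsSemisimpleRing D]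
    (hi : Function.Injective ι) (hπ : Function.Surjective π) (hp : Function.Surjective p)
    (hA : ∀ a a' : A, a * a' = a' * a)
    (hn : ∀ (b : B) (a : A), adj k b (ι a) ∈ Set.range ι)
    (hker : ∀ b : B, π b = 0 ↔
      b ∈ Ideal.span (ι '' {a : A | Coalgebra.counit (R := k) a = 0}))
    (hact : ∀ b : B, p b = 0 → ∀ a : A, adj k b (ι a) = 0) (h : FGE k C) : FGE k B := by
  have hfC : Module.Finite k C := Module.Finite.of_surjective (π : B →ₗ[k] C) hπ
  have hfD : Module.Finite k D := Module.Finite.of_surjective (p : B →ₗ[k] D) hp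
  obtain ⟨s, hs0, hs⟩ := exists_sec p hp
  obtain ⟨B1, _, _, j, hj, hjr⟩ := exists_HC ι
  have hfB1 : Module.Finite k B1 := Module.Finite.of_injective (j : B1 →ₗ[k] B) hj
  obtain ⟨t, ht⟩ := exists_avg p hp j fun b hb => ker_le p s ι hs0 hs hact j hjr b hb
  obtain ⟨ι', hι⟩ := exists_lift j hj ι fun a => by
    have h1 : ι a ∈ (HC ι : Set B) := mem_HC_of_comm ι hA a
    rw [← hjr] at h1
    exact h1
  have hi' : Function.Injective ι' := fun x y hxy => hi (by rw [← hι, ← hι, hxy])
  have hc : ∀ (a : A) (b : B1), ι' a * b = b * ι' a := by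
    intro a b
    apply hj
    rw [map_mul, map_mul, hι]
    have h1 : j b ∈ (HC ι : Set B) := by
      rw [← hjr]
      exact ⟨b, rfl⟩
    exact (HC_comm ι h1 a).symm
  obtain ⟨C0, _, _, π0, hex⟩ := exists_quotHopf ι' hi' hc
  obtain ⟨g, hg⟩ := exists_desc ι' π0 hex (π.comp j) fun a ha => by
    change π (j (ι' a)) = 0
    rw [hι, hker]
    exact Ideal.subset_span ⟨a, ha, rfl⟩
  have hfC0 : Module.Finite k C0 := Module.Finite.of_surjective (π0 : B1 →ₗ[k] C0) hex.surj
  have hginj : Function.Injective g := by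
    rw [injective_iff_map_eq_zero]
    intro c hc0
    obtain ⟨b, rfl⟩ := hex.surj c
    rw [hg] at hc0
    rw [hex.ker]
    exact inter ι hn j hj ι' hι hc b ((hker _).1 hc0)
  have h0 : FGE k C0 := fge_hopfSub g hginj h
  have h1 : FGE k B1 := fge_of_fgc (central ι' π0 hex (fgc_of_fge h0))
  exact fge_avg j hj ht h1

end

end Pool.Agent.Helper56.SS
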