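import Pool.Agent.Helper56.SS.Anti
import Pool.Agent.Helper56.SS.Com

/-!
# Extensions on whose kernel `B` acts through a semisimple quotient
-/

set_option linter.unusedSectionVars false
set_option autoImplicit false

open scoped TensorProduct
open WithConv
open Pool.Agent.Helper59.FG Pool.Agent.Helper90.FC Pool.Agent.Helper90.UN

namespace Pool.Agent.Helper56.SS

universe u

section

variable {k : Type u} [Field k] {A B C : Type u} [Ring A] [Ring B] [Ring C] [HopfAlgebra k A]
    [HopfAlgebra k B] [HopfAlgebra k C]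

/-- The left coinvariants of `π` are in `ι(A)`. -/
theorem coinv_mem [Module.Finite k A] (ι : A →ₐc[k] B) (π : B →ₐc[k] C)
    (hi : Function.Injective ι) (hπ : Function.Surjective π)
    (hker : ∀ b : B, π b = 0 ↔
      b ∈ Ideal.span (ι '' {a : A | Coalgebra.counit (R := k) a = 0})) (b : B)
    (hb : (π : B →ₗ[k] C).rTensor B (Coalgebra.comul (R := k) b) = 1 ⊗ₜ[k] b) :
    b ∈ Set.range ι := by
  obtain ⟨r, hr1, hr2⟩ := exists_retr' ι hi
  let S := HopfAlgebra.antipode k (A := B)
  let R' : B →ₗ[k] B := (ι : A →ₗ[k] B) ∘ₗ r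
  let Θ : B →ₗ[k] B := (toConv R' * toConv S).ofConv
  have hR : ∀ (y : B) (a : A), R' (y * ι a) = R' y * ι a := by
    intro y a
    change ι (r (y * ι a)) = ι (r y) * ι a
    rw [hr2, map_mul]
  have hadd : ∀ (t : B ⊗[k] B) (c c' : B), LinearMap.mul' k B (TensorProduct.map
      (LinearMap.mulRight k (c + c') ∘ₗ R') S t) = LinearMap.mul' k B (TensorProduct.map
      (LinearMap.mulRight k c ∘ₗ R') S t) + LinearMap.mul' k B (TensorProduct.map
      (LinearMap.mulRight k c' ∘ₗ R') S t) := by
    intro t c c'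
    induction t with
    | zero => simp
    | add x y hx hy => rw [map_add, map_add, hx, hy, map_add, map_add, map_add, map_add]; abel
    | tmul x y => simp [mul_add, add_mul]
  have hzero : ∀ (t : B ⊗[k] B), LinearMap.mul' k B (TensorProduct.map
      (LinearMap.mulRight k (0 : B) ∘ₗ R') S t) = 0 := by
    intro t
    induction t with
    | zero => simp
    | add x y hx hy => rw [map_add, map_add, hx, hy, add_zero]
    | tmul x y => simp
  -- `Θ (y ι(a)) = ε(a) Θ(y)`
  have h1 : ∀ (t : B ⊗[k] B) (w : A ⊗[k] A), LinearMap.mul' k B (TensorProduct.map R' S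
      (t * TensorProduct.map (ι : A →ₗ[k] B) (ι : A →ₗ[k] B) w)) =
      LinearMap.mul' k B (TensorProduct.map (LinearMap.mulRight k (ι (LinearMap.mul' k A
        ((HopfAlgebra.antipode k).lTensor A w))) ∘ₗ R') S t) := by
    intro t w
    induction w with
    | zero =>
      simp only [map_zero, mul_zero]
      exact (hzero t).symm
    | add w w' hw hw' =>
      rw [map_add, mul_add, map_add, map_add, hw, hw', map_add, map_add, map_add, hadd]
    | tmul a c =>
      induction t with
      | zero => simp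
      | add x y hx hy => rw [add_mul, map_add, map_add, map_add, map_add, hx, hy]
      | tmul x y =>
        rw [TensorProduct.map_tmul, Algebra.TensorProduct.tmul_mul_tmul, TensorProduct.map_tmul,
          TensorProduct.map_tmul, LinearMap.mul'_apply, LinearMap.mul'_apply,
          LinearMap.lTensor_tmul, LinearMap.mul'_apply]
        change R' (x * ι a) * S (y * ι c) = R' x * ι (a * HopfAlgebra.antipode k c) * S y
        rw [hR, map_mul ι, Pool.Agent.Helper90.UN.map_antipode]
        have h2 : S (y * ι c) = S (ι c) * S y := HopfAlgebra.antipode_mul_antidistrib y (ι c)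
        rw [h2]
        simp only [mul_assoc]
        rfl
  have h2 : ∀ (y : B) (a : A), Θ (y * ι a) = Coalgebra.counit (R := k) a • Θ y := by
    intro y a
    have e : TensorProduct.map (ι : A →ₗ[k] B) (ι : A →ₗ[k] B) (Coalgebra.comul (R := k) a) =
        Coalgebra.comul (R := k) (ι a) := CoalgHomClass.map_comp_comul_apply ι a
    have h3 := h1 (Coalgebra.comul (R := k) y) (Coalgebra.comul (R := k) a)
    rw [e, ← Bialgebra.comul_mul, HopfAlgebra.mul_antipode_lTensor_comul_apply,
      AlgHomClass.commutes] at h3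
    have h4 : LinearMap.mulRight k (algebraMap k B (Coalgebra.counit (R := k) a)) ∘ₗ R' =
        Coalgebra.counit (R := k) a • R' := by
      refine LinearMap.ext fun z => ?_
      change R' z * algebraMap k B _ = _
      rw [← Algebra.commutes, ← Algebra.smul_def]
      rfl
    rw [h4, TensorProduct.map_smul_left, LinearMap.smul_apply, map_smul] at h3
    exact h3
  have h3 : ∀ y, π y = 0 → Θ y = 0 := by
    intro y hy
    have h4 : ∀ c, Θ (c * y) = 0 := by
      have h5 := (hker y).1 hy
      clear hy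
      induction h5 using Submodule.span_induction with
      | mem x hx =>
        obtain ⟨a, ha, rfl⟩ := hx
        intro c
        rw [h2, ha, zero_smul]
      | zero => intro c; rw [mul_zero, map_zero]
      | add x y _ _ hx hy => intro c; rw [mul_add, map_add, hx, hy, add_zero]
      | smul d x _ hx => intro c; rw [smul_eq_mul, ← mul_assoc, hx]
    have h5 := h4 1
    rwa [one_mul] at h5
  let s : C → B := Function.surjInv hπ
  have hs : ∀ c, π (s c) = c := Function.surjInv_eq hπ
  let θ : C →ₗ[k] B :=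
    { toFun := fun c => Θ (s c)
      map_add' := fun c c' => by
        rw [← sub_eq_zero, ← map_add, ← map_sub]
        exact h3 _ (by rw [map_sub, map_add, hs, hs, hs, sub_self])
      map_smul' := fun x c => by
        rw [← sub_eq_zero, RingHom.id_apply, ← map_smul, ← map_sub]
        exact h3 _ (by rw [map_sub, map_smul, hs, hs, sub_self]) }
  have hθ : ∀ y, θ (π y) = Θ y := by
    intro y
    change Θ (s (π y)) = Θ y
    rw [← sub_eq_zero, ← map_sub]
    exact h3 _ (by rw [map_sub, hs, sub_self])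
  have e1 : toConv Θ * toConv (LinearMap.id : B →ₗ[k] B) = toConv R' := by
    have e : toConv Θ = toConv R' * toConv S := rfl
    have e' : toConv S * toConv (LinearMap.id : B →ₗ[k] B) = 1 := LinearMap.antipode_mul_id
    rw [e, mul_assoc, e', mul_one]
  have e2 := LinearMap.congr_fun (congrArg ofConv e1) b
  have e3 : ∀ t : B ⊗[k] B, LinearMap.mul' k B (TensorProduct.map Θ LinearMap.id t) =
      LinearMap.mul' k B (TensorProduct.map θ LinearMap.id ((π : B →ₗ[k] C).rTensor B t)) := by
    intro t
    induction t with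
    | zero => simp
    | add x y hx hy => simp only [map_add, hx, hy]
    | tmul x y =>
      rw [LinearMap.rTensor_tmul, TensorProduct.map_tmul, TensorProduct.map_tmul,
        LinearMap.mul'_apply, LinearMap.mul'_apply, ← hθ]
      rfl
  have e4 : LinearMap.mul' k B (TensorProduct.map Θ LinearMap.id (Coalgebra.comul (R := k) b)) =
      R' b := e2
  have e5 : Θ 1 = 1 := by
    have h6 : Θ 1 = LinearMap.mul' k B (TensorProduct.map R' S (Coalgebra.comul (R := k) 1)) := rfl
    have h7 : R' 1 = 1 := by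
      change ι (r 1) = 1
      rw [← map_one ι, hr1, map_one]
    rw [h6, Bialgebra.comul_one, Algebra.TensorProduct.one_def, TensorProduct.map_tmul,
      LinearMap.mul'_apply, h7, one_mul]
    exact HopfAlgebra.antipode_one
  rw [e3, hb, TensorProduct.map_tmul, LinearMap.mul'_apply, LinearMap.id_apply] at e4
  have e6 : θ 1 = 1 := by
    have h6 := hθ 1
    rw [map_one, e5] at h6
    exact h6
  rw [e6, one_mul] at e4
  exact ⟨r b, e4.symm⟩

end

section

variable {k : Type u} [Field k]

/-- Intersections of Hopf subalgebras. -/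
theorem exists_inter {B : Type u} [Ring B] [HopfAlgebra k B] [Module.Finite k B]
    {A K : Type u} [Ring A] [Ring K] [HopfAlgebra k A] [HopfAlgebra k K] (ι : A →ₐc[k] B)
    (j : K →ₐc[k] B) : ∃ (Z : Type u) (_ : Ring Z) (_ : HopfAlgebra k Z) (z : Z →ₐc[k] B),
      Function.Injective z ∧ Set.range z = Set.range ι ∩ Set.range j := by
  have hL : ∀ {K : Type u} [Ring K] [HopfAlgebra k K] (j : K →ₐc[k] B) (f : B →ₗ[k] k) (x : K),
      Lf f (j x) = j (Lf (f ∘ₗ (j : K →ₗ[k] B)) x) := by
    intro K _ _ j f x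
    have h1 : TensorProduct.map (j : K →ₗ[k] B) (j : K →ₗ[k] B) (Coalgebra.comul (R := k) x) =
        Coalgebra.comul (R := k) (j x) := CoalgHomClass.map_comp_comul_apply j x
    rw [Lf_apply, ← h1, Lf_apply]
    generalize Coalgebra.comul (R := k) x = t
    induction t with
    | zero => simp
    | add x y hx hy => simp only [map_add, hx, hy]
    | tmul x y => simp
  have hR : ∀ {K : Type u} [Ring K] [HopfAlgebra k K] (j : K →ₐc[k] B) (f : B →ₗ[k] k) (x : K),
      Rg f (j x) = j (Rg (f ∘ₗ (j : K →ₗ[k] B)) x) := by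
    intro K _ _ j f x
    have h1 : TensorProduct.map (j : K →ₗ[k] B) (j : K →ₗ[k] B) (Coalgebra.comul (R := k) x) =
        Coalgebra.comul (R := k) (j x) := CoalgHomClass.map_comp_comul_apply j x
    rw [Rg_apply, ← h1, Rg_apply]
    generalize Coalgebra.comul (R := k) x = t
    induction t with
    | zero => simp
    | add x y hx hy => simp only [map_add, hx, hy]
    | tmul x y => simp
  let S : Subalgebra k B := (ι : A →ₐ[k] B).range ⊓ (j : K →ₐ[k] B).range
  have hS : ∀ b ∈ S, Coalgebra.comul (R := k) b ∈ LinearMap.range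
      (TensorProduct.map S.val.toLinearMap S.val.toLinearMap) := by
    rintro b ⟨⟨a, rfl⟩, ⟨c, hc⟩⟩
    refine mem_range_of_slices (Subalgebra.toSubmodule S) _ (fun f => ⟨?_, ?_⟩)
      (fun g => ⟨?_, ?_⟩)
    · exact ⟨_, (hL ι f a).symm⟩
    · refine ⟨_, (hL j f c).symm.trans ?_⟩
      exact congrArg (Lf f) hc
    · exact ⟨_, (hR ι g a).symm⟩
    · refine ⟨_, (hR j g c).symm.trans ?_⟩
      exact congrArg (Rg g) hc
  obtain ⟨Z, i1, i2, z, hz, hzr⟩ := exists_subHopf_ring S hS (fun b hb => antipode_mem S hS hb)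
  exact ⟨Z, i1, i2, z, hz, hzr⟩

/-- Images of homomorphisms of Hopf algebras. -/
theorem exists_img {B C : Type u} [Ring B] [Ring C] [HopfAlgebra k B] [HopfAlgebra k C]
    (f : B →ₐc[k] C) : ∃ (C1 : Type u) (_ : Ring C1) (_ : HopfAlgebra k C1) (g : B →ₐc[k] C1)
      (j : C1 →ₐc[k] C), Function.Surjective g ∧ Function.Injective j ∧ ∀ b, j (g b) = f b := by
  let S : Subalgebra k C := (f : B →ₐ[k] C).range
  obtain ⟨C1, i1, i2, j, hj, hjr⟩ := exists_subHopf_ring S (by
    rintro _ ⟨b, rfl⟩
    let f' : B →ₗ[k] S := ((f : B →ₐ[k] C).rangeRestrict).toLinearMap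
    refine ⟨TensorProduct.map f' f' (Coalgebra.comul (R := k) b), ?_⟩
    have h1 : TensorProduct.map (f : B →ₗ[k] C) (f : B →ₗ[k] C) (Coalgebra.comul (R := k) b) =
        Coalgebra.comul (R := k) (f b) := CoalgHomClass.map_comp_comul_apply f b
    refine Eq.trans ?_ h1
    rw [← LinearMap.comp_apply, ← TensorProduct.map_comp]
    rfl) (by
    rintro _ ⟨b, rfl⟩
    exact ⟨HopfAlgebra.antipode k b, Pool.Agent.Helper90.UN.map_antipode f b⟩)
  obtain ⟨g, hg⟩ := exists_lift j hj f fun b => by
    rw [hjr]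
    exact ⟨b, rfl⟩
  refine ⟨C1, i1, i2, g, j, fun c => ?_, hj, hg⟩
  have h1 : j c ∈ (S : Set C) := by
    rw [← hjr]
    exact ⟨c, rfl⟩
  obtain ⟨b, hb⟩ := h1
  exact ⟨b, hj ((hg b).trans hb)⟩

variable {A B C D : Type u} [Ring A] [Ring B] [Ring C] [Ring D] [HopfAlgebra k A]
    [HopfAlgebra k B] [HopfAlgebra k C] [HopfAlgebra k D] [Module.Finite k B]

/-- Finite generation along extensions `A → B → C` if `B` acts on `A` through a semisimple quotient
`D`. -/
theorem fge_act (ι : A →ₐc[k] B) (π : B →ₐc[k] C) (p : B →ₐc[k] D) [IsSemisimpleRing D]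
    (hi : Function.Injective ι) (hπ : Function.Surjective π) (hp : Function.Surjective p)
    (hker : ∀ b : B, π b = 0 ↔
      b ∈ Ideal.span (ι '' {a : A | Coalgebra.counit (R := k) a = 0}))
    (hact : ∀ b : B, p b = 0 → ∀ a : A, adj k b (ι a) = 0) (h : FGE k C) : FGE k B := by
  have hfA : Module.Finite k A := Module.Finite.of_injective (ι : A →ₗ[k] B) hi
  have hfC : Module.Finite k C := Module.Finite.of_surjective (π : B →ₗ[k] C) hπ
  have hfD : Module.Finite k D := Module.Finite.of_surjective (p : B →ₗ[k] D) hp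
  obtain ⟨s, hs0, hs⟩ := exists_sec p hp
  obtain ⟨B1, _, _, j, hj, hjr⟩ := exists_HC ι
  have hfB1 : Module.Finite k B1 := Module.Finite.of_injective (j : B1 →ₗ[k] B) hj
  obtain ⟨t, ht⟩ := exists_avg p hp j fun b hb => ker_le p s ι hs0 hs hact j hjr b hb
  -- the Hopf center of `A`
  obtain ⟨Z, _, _, z, hz, hzr⟩ := exists_inter ι j
  obtain ⟨ζ, hζ⟩ := exists_lift j hj z fun x => by
    have h1 : z x ∈ Set.range ι ∩ Set.range j := by
      rw [← hzr]
      exact ⟨x, rfl⟩
    exact h1.2
  have hzA : ∀ x, ∃ a, z x = ι a := fun x => by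
    have h1 : z x ∈ Set.range ι ∩ Set.range j := by
      rw [← hzr]
      exact ⟨x, rfl⟩
    obtain ⟨a, ha⟩ := h1.1
    exact ⟨a, ha.symm⟩
  have hζi : Function.Injective ζ := fun x y hxy => hz (by rw [← hζ, ← hζ, hxy])
  have hc : ∀ (x : Z) (b : B1), ζ x * b = b * ζ x := by
    intro x b
    apply hj
    rw [map_mul, map_mul, hζ]
    obtain ⟨a, ha⟩ := hzA x
    have h1 : j b ∈ (HC ι : Set B) := by
      rw [← hjr]
      exact ⟨b, rfl⟩
    rw [ha]
    exact (HC_comm ι h1 a).symm
  obtain ⟨C0, _, _, π0, hex⟩ := exists_quotHopf ζ hζi hc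
  have hfC0 : Module.Finite k C0 := Module.Finite.of_surjective (π0 : B1 →ₗ[k] C0) hex.surj
  -- the image of `B1` in `C`
  obtain ⟨C1, _, _, g1, jC, hg1, hjC, hg⟩ := exists_img (π.comp j)
  have hfC1 : Module.Finite k C1 := Module.Finite.of_injective (jC : C1 →ₗ[k] C) hjC
  obtain ⟨g, hgg⟩ := exists_desc ζ π0 hex g1 fun x hx => by
    apply hjC
    rw [hg, map_zero]
    change π (j (ζ x)) = 0
    rw [hζ, hker]
    obtain ⟨a, ha⟩ := hzA x
    rw [ha]
    refine Ideal.subset_span ⟨a, ?_, rfl⟩
    change Coalgebra.counit (R := k) a = 0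
    rw [← Pool.Agent.Helper90.UN.map_counit ι, ← ha, Pool.Agent.Helper90.UN.map_counit z, hx]
  obtain ⟨s1, hs10, hs1⟩ := exists_sec g1 hg1
  have hginj : Function.Injective g := by
    rw [injective_iff_map_eq_zero]
    intro c hc0
    obtain ⟨b, rfl⟩ := hex.surj c
    rw [hgg] at hc0
    rw [hex.ker]
    refine ker_le_of g1 s1 hs10 ζ (fun y => ?_) b hc0
    have h1 := rT_kap g1 s1 hs1 y
    have h2 : (π : B →ₗ[k] C).rTensor B (Coalgebra.comul (R := k) (j (kap g1 s1 y))) =
        1 ⊗ₜ[k] j (kap g1 s1 y) := by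
      have e1 : TensorProduct.map (j : B1 →ₗ[k] B) (j : B1 →ₗ[k] B)
          (Coalgebra.comul (R := k) (kap g1 s1 y)) =
          Coalgebra.comul (R := k) (j (kap g1 s1 y)) := CoalgHomClass.map_comp_comul_apply j _
      have e2 : ∀ t : B1 ⊗[k] B1, (π : B →ₗ[k] C).rTensor B (TensorProduct.map
          (j : B1 →ₗ[k] B) (j : B1 →ₗ[k] B) t) = TensorProduct.map (jC : C1 →ₗ[k] C)
            (j : B1 →ₗ[k] B) ((g1 : B1 →ₗ[k] C1).rTensor B1 t) := by
        intro t
        induction t with
        | zero => simp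
        | add x y hx hy => simp only [map_add, hx, hy]
        | tmul x y =>
          rw [TensorProduct.map_tmul, LinearMap.rTensor_tmul, LinearMap.rTensor_tmul,
            TensorProduct.map_tmul]
          congr 1
          exact (hg x).symm
      rw [← e1, e2, h1, TensorProduct.map_tmul]
      congr 1
      exact map_one jC
    have h3 := coinv_mem ι π hi hπ hker _ h2
    have h4 : j (kap g1 s1 y) ∈ Set.range z := by
      rw [hzr]
      exact ⟨h3, ⟨_, rfl⟩⟩
    obtain ⟨x, hx⟩ := h4
    exact ⟨x, hj (by rw [hζ, hx])⟩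
  have h0 : FGE k C0 := fge_hopfSub g hginj (fge_hopfSub jC hjC h)
  have h1 : FGE k B1 := fge_of_fgc (central ζ π0 hex (fgc_of_fge h0))
  exact fge_avg j hj ht h1

end

end Pool.Agent.Helper56.SS
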