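import Pool.Agent.Helper56.SS.Rey

/-!
# Finite generation from a Hopf subalgebra with an averaging element

Let `φ : K → B` be an injective homomorphism of finite-dimensional Hopf algebras with an averaging
element. If `K` has the finite generation property, then so does `B`.
-/

set_option linter.unusedSectionVars false
set_option autoImplicit false

open CategoryTheory CategoryTheory.Abelian CategoryTheory.Limits
open scoped ModuleCat TensorProduct
open Pool.Agent.Helper59.FG Pool.Agent.Helper90.FC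

namespace Pool.Agent.Helper56.SS

universe u

section

variable {k : Type u} [Field k] {K B : Type u} [Ring K] [Ring B] [HopfAlgebra k K] [HopfAlgebra k B]
variable (φ : K →ₐc[k] B) {t : B} (ht : Avg φ t)
variable [PreservesFiniteLimits (co (φ : K →ₐ[k] B))] [PreservesFiniteColimits (co (φ : K →ₐ[k] B))]

/-- The Reynolds operator `Ext_K(k, M) → Ext_B(k, M)`. -/
noncomputable def rho {M : ModuleCat.{u} B} {n : ℕ}
    (y : Ext (trivObj k K) ((res (φ : K →ₐ[k] B)).obj M) n) : Ext (trivObj k B) M n :=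
  (coCls (φ : K →ₐ[k] B) (aug_of_bialg φ) y).comp (Ext.mk₀ ((sig φ ht).app M)) (add_zero n)

theorem rho_add {M : ModuleCat.{u} B} {n : ℕ}
    (y z : Ext (trivObj k K) ((res (φ : K →ₐ[k] B)).obj M) n) :
    rho φ ht (y + z) = rho φ ht y + rho φ ht z := by
  simp only [rho, coCls, Ext.mapExactFunctor_add, Ext.comp_add, Ext.add_comp]

theorem rho_smul {M : ModuleCat.{u} B} {n : ℕ} (c : k)
    (y : Ext (trivObj k K) ((res (φ : K →ₐ[k] B)).obj M) n) :
    rho φ ht (c • y) = c • rho φ ht y := by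
  simp only [rho, coCls, Functor.mapExactFunctor_smul, Ext.comp_smul, Ext.smul_comp]

/-- The unit and the Reynolds operator. -/
theorem res_sig {M N : ModuleCat.{u} B} {n : ℕ} (x : Ext M N n) :
    ((x.mapExactFunctor (res (φ : K →ₐ[k] B))).mapExactFunctor (co (φ : K →ₐ[k] B))).comp
      (Ext.mk₀ ((sig φ ht).app N)) (add_zero n) =
        (Ext.mk₀ ((sig φ ht).app M)).comp x (zero_add n) := by
  have h := nat0 (sig φ ht) x
  rw [mapId, mapComp] at h
  exact h

theorem unit_res {M N : ModuleCat.{u} B} {n : ℕ} (x : Ext M N n) :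
    (Ext.mk₀ ((coUnit (φ : K →ₐ[k] B)).app M)).comp
      ((x.mapExactFunctor (res (φ : K →ₐ[k] B))).mapExactFunctor (co (φ : K →ₐ[k] B)))
        (zero_add n) = x.comp (Ext.mk₀ ((coUnit (φ : K →ₐ[k] B)).app N)) (add_zero n) := by
  have h := nat0 (coUnit (φ : K →ₐ[k] B)) x
  rw [mapId, mapComp] at h
  exact h.symm

/-- Composition with the restriction of a class. -/
theorem rho_comp_res {M : ModuleCat.{u} B} {a b c : ℕ}
    (y : Ext (trivObj k K) ((res (φ : K →ₐ[k] B)).obj (trivObj k B)) a)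
    (x : Ext (trivObj k B) M b) (h : a + b = c) :
    rho φ ht (y.comp (x.mapExactFunctor (res (φ : K →ₐ[k] B))) h) = (rho φ ht y).comp x h := by
  unfold rho coCls
  rw [Ext.mapExactFunctor_comp, Ext.comp_assoc_of_third_deg_zero,
    Ext.comp_assoc_of_third_deg_zero, res_sig, Ext.comp_assoc_of_second_deg_zero]
  exact (Ext.comp_assoc _ _ _ (zero_add a) h (by omega)).symm

theorem rho_one : rho φ ht (Ext.mk₀ (resTriv (φ : K →ₐ[k] B) (aug_of_bialg φ))) =
    Ext.mk₀ (𝟙 (trivObj k B)) := by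
  unfold rho coCls
  rw [Ext.mapExactFunctor_mk₀, Ext.mk₀_comp_mk₀, Ext.mk₀_comp_mk₀]
  congr 1
  have h1 : (co (φ : K →ₐ[k] B)).map (inv (resTriv (φ : K →ₐ[k] B) (aug_of_bialg φ))) ≫
      (co (φ : K →ₐ[k] B)).map (resTriv (φ : K →ₐ[k] B) (aug_of_bialg φ)) = 𝟙 _ := by
    rw [← Functor.map_comp, IsIso.inv_hom_id, CategoryTheory.Functor.map_id]
  have h2 : (co (φ : K →ₐ[k] B)).map (inv (resTriv (φ : K →ₐ[k] B) (aug_of_bialg φ))) ≫
      (co (φ : K →ₐ[k] B)).map (resTriv (φ : K →ₐ[k] B) (aug_of_bialg φ)) ≫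
        (sig φ ht).app (trivObj k B) = (sig φ ht).app (trivObj k B) := by
    rw [← Category.assoc, h1]
    exact Category.id_comp _
  exact (Category.assoc _ _ _).trans
    ((congrArg (fun w => (coUnit (φ : K →ₐ[k] B)).app (trivObj k B) ≫ w) h2).trans
      (coUnit_sig φ ht (trivObj k B)))

theorem rho_rs {M : ModuleCat.{u} B} {n : ℕ} (x : Ext (trivObj k B) M n) :
    rho φ ht (rs (φ : K →ₐ[k] B) (aug_of_bialg φ) x) = x := by
  unfold rs
  rw [rho_comp_res, rho_one, Ext.mk₀_id_comp]

/-- The Reynolds operator on the cohomology ring. -/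
noncomputable def rhoE {n : ℕ} (y : Ext (trivObj k K) (trivObj k K) n) :
    Ext (trivObj k B) (trivObj k B) n :=
  rho φ ht (y.comp (Ext.mk₀ (resTriv (φ : K →ₐ[k] B) (aug_of_bialg φ))) (add_zero n))

theorem rho_comp_rs {M : ModuleCat.{u} B} {a b c : ℕ} (y : Ext (trivObj k K) (trivObj k K) a)
    (x : Ext (trivObj k B) M b) (h : a + b = c) :
    rho φ ht (y.comp (rs (φ : K →ₐ[k] B) (aug_of_bialg φ) x) h) = (rhoE φ ht y).comp x h := by
  unfold rhoE
  rw [← rho_comp_res]
  unfold rs
  rw [Ext.comp_assoc_of_second_deg_zero]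

end

section

variable {k : Type u} [Field k] {K B : Type u} [Ring K] [Ring B] [HopfAlgebra k K] [HopfAlgebra k B]
variable (φ : K →ₐc[k] B) {t : B} (ht : Avg φ t)

/-- Products of even classes and classes in `L`, in `Ext_B(k, M)`. -/
noncomputable def Sp {M : ModuleCat.{u} B} (L : ∀ n, Submodule k (Ext (trivObj k B) M n)) (N n : ℕ) :
    Submodule k (Ext (trivObj k B) M n) :=
  Submodule.span k {z | ∃ (a m : ℕ) (h : a + m = n) (x : Ext (trivObj k B) (trivObj k B) a)
    (l : Ext (trivObj k B) M m), Even a ∧ m < N ∧ l ∈ L m ∧ z = x.comp l h}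

/-- Products of even classes of `K` and restrictions of classes in `L`. -/
noncomputable def Wp {M : ModuleCat.{u} B} (L : ∀ n, Submodule k (Ext (trivObj k B) M n)) (N n : ℕ) :
    Submodule k (Ext (trivObj k K) ((res (φ : K →ₐ[k] B)).obj M) n) :=
  Submodule.span k {z | ∃ (a m : ℕ) (h : a + m = n) (x : Ext (trivObj k K) (trivObj k K) a)
    (l : Ext (trivObj k B) M m), Even a ∧ m < N ∧ l ∈ L m ∧
      z = x.comp (rs (φ : K →ₐ[k] B) (aug_of_bialg φ) l) h}

theorem Wp_closed {ι : Type} (ζ : Fam k K ι) {M : ModuleCat.{u} B}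
    (L : ∀ n, Submodule k (Ext (trivObj k B) M n)) (N : ℕ) (i : ι) {m n : ℕ}
    (h : ζ.deg i + m = n) (x : Ext (trivObj k K) ((res (φ : K →ₐ[k] B)).obj M) m)
    (hx : x ∈ Wp φ L N m) : (ζ.cls i).comp x h ∈ Wp φ L N n := by
  unfold Wp at hx
  induction hx using Submodule.span_induction with
  | mem x hx =>
    obtain ⟨a, m', h', y, l, ha, hm, hl, rfl⟩ := hx
    refine Submodule.subset_span ⟨ζ.deg i + a, m', by omega, (ζ.cls i).comp y rfl, l,
      (ζ.even i).add ha, hm, hl, ?_⟩
    exact (Ext.comp_assoc (ζ.cls i) y _ rfl h' (by omega)).symm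
  | zero => rw [Ext.comp_zero]; exact Submodule.zero_mem _
  | add x y _ _ hx hy => rw [Ext.comp_add]; exact Submodule.add_mem _ hx hy
  | smul c x _ hx => rw [Ext.comp_smul]; exact Submodule.smul_mem _ _ hx

theorem Wp_bound [Module.Finite k K] {r : ℕ} (ζ : Fam k K (Fin r)) {M : ModuleCat.{u} B}
    (hM : Module.Finite K ((res (φ : K →ₐ[k] B)).obj M))
    (hζ : ζ.EvGen ((res (φ : K →ₐ[k] B)).obj M))
    (L : ∀ n, Submodule k (Ext (trivObj k B) M n)) :
    ∃ N : ℕ, ∀ n, Wp φ L (n + 1) n ≤ Wp φ L N n := by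
  obtain ⟨N, hN⟩ := ζ.hilb ((res (φ : K →ₐ[k] B)).obj M) hζ (fun n => Wp φ L (n + 1) n) (by
    intro i m n h x hx
    have h1 : Wp φ L (m + 1) m ≤ Wp φ L (n + 1) m := by
      refine Submodule.span_mono ?_
      rintro z ⟨a, m', h', y, l, ha, hm, hl, rfl⟩
      exact ⟨a, m', h', y, l, ha, by omega, hl, rfl⟩
    exact Wp_closed φ ζ L (n + 1) i h x (h1 hx))
  refine ⟨N, fun n => ?_⟩
  induction n using Nat.strong_induction_on with
  | _ n ih =>
    rcases lt_or_ge n N with hn | hn
    · refine Submodule.span_mono ?_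
      rintro z ⟨a, m', h', y, l, ha, hm, hl, rfl⟩
      exact ⟨a, m', h', y, l, ha, by omega, hl, rfl⟩
    · refine (hN n hn).trans ?_
      refine iSup_le fun i => iSup_le fun m => iSup_le fun h => ?_
      rintro _ ⟨x, hx, rfl⟩
      have hp := ζ.pos i
      exact Wp_closed φ ζ L N i h x (ih m (by omega) hx)

/-- The key lemma. -/
theorem key (hP : Module.Projective K ((res (φ : K →ₐ[k] B)).obj (ModuleCat.of B B)))
    [Module.Finite k K] {r : ℕ} (ζ : Fam k K (Fin r)) {M : ModuleCat.{u} B}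
    (hM : Module.Finite K ((res (φ : K →ₐ[k] B)).obj M))
    (hζ : ζ.EvGen ((res (φ : K →ₐ[k] B)).obj M))
    (L : ∀ n, Submodule k (Ext (trivObj k B) M n)) (ht : Avg φ t) :
    ∃ N : ℕ, ∀ n, L n ≤ Sp L N n := by
  have := co_lim (φ : K →ₐ[k] B) hP
  have := co_colim (φ : K →ₐ[k] B) hP
  obtain ⟨N, hN⟩ := Wp_bound φ ζ hM hζ L
  refine ⟨N, fun n l hl => ?_⟩
  have h1 : rs (φ : K →ₐ[k] B) (aug_of_bialg φ) l ∈ Wp φ L (n + 1) n :=
    Submodule.subset_span ⟨0, n, zero_add n, Ext.mk₀ (𝟙 _), l, Even.zero, by omega, hl,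
      (Ext.mk₀_id_comp _).symm⟩
  have h2 := hN n h1
  let ρ : Ext (trivObj k K) ((res (φ : K →ₐ[k] B)).obj M) n →ₗ[k] Ext (trivObj k B) M n :=
    { toFun := fun y => rho φ ht y
      map_add' := fun y z => rho_add φ ht y z
      map_smul' := fun c y => rho_smul φ ht c y }
  have h3 : Wp φ L N n ≤ (Sp L N n).comap ρ := by
    refine Submodule.span_le.2 ?_
    rintro z ⟨a, m', h', y, l', ha, hm, hl', rfl⟩
    change rho φ ht _ ∈ Sp L N n
    rw [rho_comp_rs]
    exact Submodule.subset_span ⟨a, m', h', rhoE φ ht y, l', ha, hm, hl', rfl⟩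
  have h4 := h3 h2
  change rho φ ht _ ∈ Sp L N n at h4
  rwa [rho_rs] at h4

theorem fin_triv (k : Type u) [Field k] (B : Type u) [Ring B] [Bialgebra k B] :
    Module.Finite B (trivObj k B) := by
  refine ⟨⟨{(show trivObj k B from (1 : k))}, ?_⟩⟩
  rw [eq_top_iff]
  intro x _
  have h1 : x = (algebraMap k B (show k from x)) • (show trivObj k B from (1 : k)) := by
    change x = (show k from Coalgebra.counit (R := k) (algebraMap k B (show k from x)) * 1)
    rw [mul_one, Bialgebra.counit_algebraMap]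
  rw [h1]
  apply Submodule.smul_mem
  apply Submodule.subset_span
  exact Finset.mem_coe.2 (Finset.mem_singleton_self _)

/-- Homogeneous basis elements of positive even degree `< N`. -/
noncomputable def bfam [Module.Finite k B] (N : ℕ) :
    Fam k B (Σ m : {m : Fin N // 0 < m.1 ∧ Even m.1},
      Fin (Module.finrank k (Ext (trivObj k B) (trivObj k B) m.1.1))) where
  deg i := i.1.1.1
  cls i :=
    haveI := fin_triv k B
    haveI : Module.Finite k (Ext (trivObj k B) (trivObj k B) i.1.1.1) := finite_ext k _ _ _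
    Module.finBasis k (Ext (trivObj k B) (trivObj k B) i.1.1.1) i.2
  pos i := i.1.2.1
  even i := i.1.2.2

/-- `bfam` generates all classes of positive even degree. -/
theorem bfam_gen [Module.Finite k B] (N : ℕ)
    (L : ∀ n, Submodule k (Ext (trivObj k B) (trivObj k B) n))
    (hL : ∀ n, L n = ⊥ ∨ (0 < n ∧ Even n)) (n : ℕ) :
    Sp L N n ≤ (bfam (k := k) (B := B) N).gen (trivObj k B) n := by
  refine Submodule.span_le.2 ?_
  rintro z ⟨a, m, h, x, l, ha, hm, hl, rfl⟩
  rcases hL m with h0 | ⟨h1, h2⟩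
  · rw [h0, Submodule.mem_bot] at hl
    subst hl
    rw [Ext.comp_zero]
    exact Submodule.zero_mem _
  · have := fin_triv k B
    have : Module.Finite k (Ext (trivObj k B) (trivObj k B) m) := finite_ext k _ _ _
    have e : x.comp l h = l.comp x (by omega) := (comm_even k l x (by omega) h h2).symm
    rw [SetLike.mem_coe, e]
    have hs := (Module.finBasis k (Ext (trivObj k B) (trivObj k B) m)).sum_repr l
    rw [← hs, Ext.sum_comp]
    refine Submodule.sum_mem _ fun i _ => ?_
    rw [Ext.smul_comp]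
    refine Submodule.smul_mem _ _ ?_
    exact (bfam (k := k) (B := B) N).mem_gen ⟨⟨⟨m, hm⟩, h1, h2⟩, i⟩ (by
      change m + a = n
      omega) x

theorem gen_comp {ι : Type} (ζ : Fam k B ι) {M : ModuleCat.{u} B} {a b c : ℕ}
    (x : Ext (trivObj k B) (trivObj k B) a) (hx : x ∈ ζ.gen (trivObj k B) a)
    (y : Ext (trivObj k B) M b) (h : a + b = c) : x.comp y h ∈ ζ.gen M c := by
  let f : Ext (trivObj k B) (trivObj k B) a →ₗ[k] Ext (trivObj k B) M c :=
    { toFun := fun x => x.comp y h
      map_add' := fun x x' => Ext.add_comp _ _ _ _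
      map_smul' := fun c x => Ext.smul_comp _ _ _ _ }
  have h1 : ζ.gen (trivObj k B) a ≤ (ζ.gen M c).comap f := by
    rw [Fam.gen_le_iff]
    intro i m h' z
    change ((ζ.cls i).comp z h').comp y h ∈ ζ.gen M c
    rw [Ext.comp_assoc _ _ _ h' (rfl : m + b = m + b) (by omega)]
    exact ζ.mem_gen i _ _
  exact h1 hx

theorem fge_up (hP : Module.Projective K ((res (φ : K →ₐ[k] B)).obj (ModuleCat.of B B)))
    [Module.Finite k K] [Module.Finite k B] (ht : Avg φ t) (h : FGE k K) : FGE k B := by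
  classical
  obtain ⟨r, ζ, hζ⟩ := h
  have hfin : ∀ M : ModuleCat.{u} B, Module.Finite B M →
      Module.Finite K ((res (φ : K →ₐ[k] B)).obj M) := by
    intro M hM
    have h1 : Module.Finite k M := Module.Finite.trans B M
    have h2 : Module.Finite k ((res (φ : K →ₐ[k] B)).obj M) := by
      let f : ((res (φ : K →ₐ[k] B)).obj M : ModuleCat.{u} K) →ₗ[k] M :=
        { toFun := fun m => (show M from m)
          map_add' := fun x y => rfl
          map_smul' := fun c x => by
            change φ (algebraMap k K c) • (show M from x) = c • (show M from x)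
            rw [AlgHomClass.commutes, algebraMap_smul] }
      exact Module.Finite.of_injective f (fun x y h => h)
    exact Module.Finite.of_restrictScalars_finite k K _
  have htriv : Module.Finite B (trivObj k B) := fin_triv k B
  let L0 : ∀ n, Submodule k (Ext (trivObj k B) (trivObj k B) n) := fun n =>
    if 0 < n ∧ Even n then ⊤ else ⊥
  obtain ⟨N1, hN1⟩ := key φ hP ζ (hfin _ htriv) (hζ _ (hfin _ htriv)) L0 ht
  have hL0 : ∀ n, L0 n = ⊥ ∨ (0 < n ∧ Even n) := by
    intro n
    by_cases hn : 0 < n ∧ Even n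
    · exact Or.inr hn
    · left
      simp only [L0, if_neg hn]
  have hgen : ∀ n, 0 < n → Even n → (bfam (k := k) (B := B) N1).gen (trivObj k B) n = ⊤ := by
    intro n h1 h2
    rw [eq_top_iff]
    refine le_trans ?_ (bfam_gen N1 L0 hL0 n)
    refine le_trans ?_ (hN1 n)
    simp only [L0, if_pos (And.intro h1 h2)]
    exact le_refl _
  refine FGE.of_finite (bfam (k := k) (B := B) N1) fun M hM => ?_
  obtain ⟨N2, hN2⟩ := key φ hP ζ (hfin _ hM) (hζ _ (hfin _ hM)) (fun _ => ⊤) ht
  refine ⟨N2, fun n hn => ?_⟩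
  rw [eq_top_iff]
  refine (hN2 n).trans (Submodule.span_le.2 ?_)
  rintro z ⟨a, m, h, x, l, ha, hm, hl, rfl⟩
  refine gen_comp _ x ?_ l h
  rw [hgen a (by omega) ha]
  exact Submodule.mem_top

/-- Finite generation passes from a Hopf subalgebra with an averaging element to the whole
Hopf algebra. -/
theorem fge_avg [Module.Finite k K] [Module.Finite k B] (hφ : Function.Injective φ)
    (ht : Avg φ t) (h : FGE k K) : FGE k B := fge_up φ (proj_res φ hφ) ht h

end

end Pool.Agent.Helper56.SS
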