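import Pool.Agent.Helper56.SS.HC
import Pool.Agent.Helper56.SS.Down
import Pool.Agent.Helper90.UN.Ad

/-!
# The kernel of the quotient through which `B` acts on `A`
-/

set_option linter.unusedSectionVars false
set_option autoImplicit false

open scoped TensorProduct
open WithConv
open Pool.Agent.Helper59.FG Pool.Agent.Helper90.FC Pool.Agent.Helper90.UN

namespace Pool.Agent.Helper56.SS

universe u

section

variable {k : Type u} [Field k] {A B : Type u} [Ring A] [Ring B] [HopfAlgebra k A]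
    [HopfAlgebra k B] (ι : A →ₐc[k] B)

/-- `∑ b₁ a S(b₂) ⊗ b₃ = a ⊗ b` for all `a ∈ ι(A)` -/
def PP (b : B) : Prop :=
  ∀ a : A, (adR k (ι a)).rTensor B (Coalgebra.comul (R := k) b) = ι a ⊗ₜ[k] b

variable {ι}

theorem PP.rg {b : B} (hb : PP ι b) (g : B →ₗ[k] k) : PP ι (Rg g b) := by
  intro a
  rw [comul_Rg]
  have h : ∀ t : B ⊗[k] B, (adR k (ι a)).rTensor B ((Rg g).lTensor B t) =
      (Rg g).lTensor B ((adR k (ι a)).rTensor B t) := by
    intro t
    induction t with
    | zero => simp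
    | add x y hx hy => simp only [map_add, hx, hy]
    | tmul x y => simp
  rw [h, hb a, LinearMap.lTensor_tmul]

theorem PP.comm {b : B} (hb : PP ι b) (a : A) : b * ι a = ι a * b := by
  have h1 := LinearMap.congr_fun (congrArg ofConv (adR_mul_id (k := k) (ι a))) b
  have h2 : (toConv (adR k (ι a)) * toConv (LinearMap.id : B →ₗ[k] B)).ofConv b =
      LinearMap.mul' k B ((adR k (ι a)).rTensor B (Coalgebra.comul (R := k) b)) := rfl
  rw [h2, hb a, LinearMap.mul'_apply] at h1
  exact h1.symm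

theorem PP.right {b : B} (hb : PP ι b) (a : A) :
    Coalgebra.comul (R := k) b * (ι a ⊗ₜ[k] 1) = (ι a ⊗ₜ[k] 1) * Coalgebra.comul (R := k) b := by
  have e1 : toConv ((il k B).toLinearMap ∘ₗ adR k (ι a)) *
      toConv (Bialgebra.comulAlgHom k B).toLinearMap =
      toConv ((il k B).toLinearMap ∘ₗ LinearMap.mulRight k (ι a)) *
        toConv (ir k B).toLinearMap := by
    rw [comul_eq, ← mul_assoc]
    have h1 := comp_conv (il k B) (adR k (ι a)) LinearMap.id
    rw [adR_mul_id] at h1
    exact congrArg (· * toConv (ir k B).toLinearMap) h1.symm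
  have h1 := LinearMap.congr_fun (congrArg ofConv e1) b
  have h2 : ∀ t : B ⊗[k] B, LinearMap.mul' k (B ⊗[k] B) (TensorProduct.map
      ((il k B).toLinearMap ∘ₗ adR k (ι a)) (Bialgebra.comulAlgHom k B).toLinearMap t) =
      LinearMap.mul' k (B ⊗[k] B) (TensorProduct.map (il k B).toLinearMap
        (Bialgebra.comulAlgHom k B).toLinearMap ((adR k (ι a)).rTensor B t)) := by
    intro t
    induction t with
    | zero => simp
    | add x y hx hy => simp only [map_add, hx, hy]
    | tmul x y => simp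
  have h3 : ∀ t : B ⊗[k] B, LinearMap.mul' k (B ⊗[k] B) (TensorProduct.map
      ((il k B).toLinearMap ∘ₗ LinearMap.mulRight k (ι a)) (ir k B).toLinearMap t) =
      t * (ι a ⊗ₜ[k] 1) := by
    intro t
    induction t with
    | zero => simp
    | add x y hx hy => rw [map_add, map_add, hx, hy, add_mul]
    | tmul x y =>
      rw [TensorProduct.map_tmul, LinearMap.mul'_apply]
      change ((x * ι a) ⊗ₜ[k] (1 : B)) * ((1 : B) ⊗ₜ[k] y) = _
      rw [Algebra.TensorProduct.tmul_mul_tmul, Algebra.TensorProduct.tmul_mul_tmul, mul_one,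
        mul_one, one_mul]
  have h4 : LinearMap.mul' k (B ⊗[k] B) (TensorProduct.map
      ((il k B).toLinearMap ∘ₗ adR k (ι a)) (Bialgebra.comulAlgHom k B).toLinearMap
        (Coalgebra.comul (R := k) b)) = LinearMap.mul' k (B ⊗[k] B) (TensorProduct.map
      ((il k B).toLinearMap ∘ₗ LinearMap.mulRight k (ι a)) (ir k B).toLinearMap
        (Coalgebra.comul (R := k) b)) := h1
  rw [h2, h3, hb a, TensorProduct.map_tmul, LinearMap.mul'_apply] at h4
  exact h4.symm

theorem PP.left {b : B} (hb : PP ι b) (a : A) :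
    Coalgebra.comul (R := k) b * (1 ⊗ₜ[k] ι a) = (1 ⊗ₜ[k] ι a) * Coalgebra.comul (R := k) b := by
  let t := Coalgebra.comul (R := k) b
  let iA : A →ₐ[k] B := (ι : A →ₐ[k] B)
  let I1 : WithConv (A →ₗ[k] B ⊗[k] B) := toConv ((il k B).comp iA).toLinearMap
  let I2 : WithConv (A →ₗ[k] B ⊗[k] B) := toConv ((ir k B).comp iA).toLinearMap
  let F : WithConv (A →ₗ[k] B ⊗[k] B) :=
    toConv (LinearMap.mulLeft k t ∘ₗ ((ir k B).comp iA).toLinearMap)
  let G : WithConv (A →ₗ[k] B ⊗[k] B) :=
    toConv (LinearMap.mulRight k t ∘ₗ ((ir k B).comp iA).toLinearMap)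
  have e0 : ∀ a : A, (I1 * I2).ofConv a = Coalgebra.comul (R := k) (ι a) := by
    intro a
    have h1 : TensorProduct.map (ι : A →ₗ[k] B) (ι : A →ₗ[k] B) (Coalgebra.comul (R := k) a) =
        Coalgebra.comul (R := k) (ι a) := CoalgHomClass.map_comp_comul_apply ι a
    rw [← h1]
    change LinearMap.mul' k (B ⊗[k] B) (TensorProduct.map ((il k B).comp iA).toLinearMap
      ((ir k B).comp iA).toLinearMap (Coalgebra.comul (R := k) a)) = _
    generalize Coalgebra.comul (R := k) a = s
    induction s with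
    | zero => simp
    | add x y hx hy => rw [map_add, map_add, hx, hy, map_add]
    | tmul x y =>
      rw [TensorProduct.map_tmul, TensorProduct.map_tmul, LinearMap.mul'_apply]
      change (ι x ⊗ₜ[k] (1 : B)) * ((1 : B) ⊗ₜ[k] ι y) = ι x ⊗ₜ[k] ι y
      rw [Algebra.TensorProduct.tmul_mul_tmul, mul_one, one_mul]
  have e1 : I1 * F = I1 * G := by
    refine WithConv.ext (LinearMap.ext fun a => ?_)
    have X := Coalgebra.Repr.arbitrary k a
    have h0 := e0 a
    rw [X.convMul_apply] at h0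
    rw [X.convMul_apply, X.convMul_apply]
    have h1 : ∀ i, I1.ofConv (X.left i) * F.ofConv (X.right i) =
        t * (I1.ofConv (X.left i) * I2.ofConv (X.right i)) := by
      intro i
      change (ι (X.left i) ⊗ₜ[k] (1 : B)) * (t * ((1 : B) ⊗ₜ[k] ι (X.right i))) =
        t * ((ι (X.left i) ⊗ₜ[k] (1 : B)) * ((1 : B) ⊗ₜ[k] ι (X.right i)))
      rw [← mul_assoc, ← hb.right, mul_assoc]
    have h2 : ∀ i, I1.ofConv (X.left i) * G.ofConv (X.right i) =
        (I1.ofConv (X.left i) * I2.ofConv (X.right i)) * t := by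
      intro i
      change (ι (X.left i) ⊗ₜ[k] (1 : B)) * (((1 : B) ⊗ₜ[k] ι (X.right i)) * t) =
        ((ι (X.left i) ⊗ₜ[k] (1 : B)) * ((1 : B) ⊗ₜ[k] ι (X.right i))) * t
      rw [mul_assoc]
    simp only [h1, h2]
    rw [← Finset.mul_sum, ← Finset.sum_mul, h0, ← Bialgebra.comul_mul, ← Bialgebra.comul_mul,
      hb.comm]
  have e2 : F = G := by
    have h1 := congrArg (fun w => toConv (((il k B).comp iA).toLinearMap ∘ₗ
      HopfAlgebra.antipode k (A := A)) * w) e1
    have h2 : toConv (((il k B).comp iA).toLinearMap ∘ₗ HopfAlgebra.antipode k (A := A)) * I1 =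
        1 := compS_mul _
    simp only [← mul_assoc, h2, one_mul] at h1
    exact h1
  exact LinearMap.congr_fun (congrArg ofConv e2) a

theorem PP.mem [Module.Finite k B] {b : B} (hb : PP ι b) : b ∈ HC ι := by
  rw [mem_HC]
  intro f g a
  have h1 := (hb.rg g).left a
  have h2 : ∀ t : B ⊗[k] B, TensorProduct.lid k B (f.rTensor B (t * (1 ⊗ₜ[k] ι a))) =
      TensorProduct.lid k B (f.rTensor B t) * ι a := by
    intro t
    induction t with
    | zero => simp
    | add x y hx hy => simp only [add_mul, map_add, hx, hy]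
    | tmul x y => simp
  have h3 : ∀ t : B ⊗[k] B, TensorProduct.lid k B (f.rTensor B ((1 ⊗ₜ[k] ι a) * t)) =
      ι a * TensorProduct.lid k B (f.rTensor B t) := by
    intro t
    induction t with
    | zero => simp
    | add x y hx hy => simp only [mul_add, map_add, hx, hy]
    | tmul x y => simp
  rw [← Lf_Rg, Lf_apply, ← h2, h1, h3]

end

section

variable {k : Type u} [Field k] {B C : Type u} [Ring B] [Ring C] [HopfAlgebra k B]
    [HopfAlgebra k C] (p : B →ₐc[k] C) (s : C →ₗ[k] B)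

/-- `S(b₁) s(p(b₂))` -/
noncomputable def kap : B →ₗ[k] B :=
  (toConv (HopfAlgebra.antipode k (A := B)) * toConv (s ∘ₗ (p : B →ₗ[k] C))).ofConv

theorem id_kap : toConv (LinearMap.id : B →ₗ[k] B) * toConv (kap p s) =
    toConv (s ∘ₗ (p : B →ₗ[k] C)) := by
  have h : toConv (kap p s) = toConv (HopfAlgebra.antipode k (A := B)) *
    toConv (s ∘ₗ (p : B →ₗ[k] C)) := rfl
  rw [h, ← mul_assoc, LinearMap.id_mul_antipode, one_mul]

theorem counit_kap (hs : ∀ c, p (s c) = c) (b : B) :
    Coalgebra.counit (R := k) (kap p s b) = Coalgebra.counit (R := k) b := by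
  have X := Coalgebra.Repr.arbitrary k b
  have h1 : kap p s b = ∑ i ∈ X.index, HopfAlgebra.antipode k (X.left i) *
      s (p (X.right i)) := X.convMul_apply _ _
  have h2 : ∀ c, Coalgebra.counit (R := k) (s c) = Coalgebra.counit (R := k) c := by
    intro c
    rw [← Pool.Agent.Helper90.UN.map_counit p (s c), hs]
  have h4 := congrArg (Coalgebra.counit (R := k)) (Coalgebra.sum_counit_smul X)
  rw [map_sum] at h4
  rw [h1, map_sum, ← h4]
  refine Finset.sum_congr rfl fun i _ => ?_
  rw [Bialgebra.counit_mul, HopfAlgebra.counit_antipode, h2,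
    Pool.Agent.Helper90.UN.map_counit p, map_smul, smul_eq_mul]

theorem rT_kap (hs : ∀ c, (p : B →ₗ[k] C).rTensor B (Coalgebra.comul (R := k) (s c)) =
    s.lTensor C (Coalgebra.comul (R := k) c)) (x : B) :
    (p : B →ₗ[k] C).rTensor B (Coalgebra.comul (R := k) (kap p s x)) = 1 ⊗ₜ[k] kap p s x := by
  let pA : B →ₐ[k] C := (p : B →ₐ[k] C)
  let il' : C →ₐ[k] C ⊗[k] B := Algebra.TensorProduct.includeLeft
  let ir' : B →ₐ[k] C ⊗[k] B := Algebra.TensorProduct.includeRight
  let Dp : B →ₐ[k] C ⊗[k] B := (Algebra.TensorProduct.map pA (AlgHom.id k B)).comp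
    (Bialgebra.comulAlgHom k B)
  let P1 : WithConv (B →ₗ[k] C ⊗[k] B) := toConv (il'.comp pA).toLinearMap
  let I : WithConv (B →ₗ[k] C ⊗[k] B) := toConv ir'.toLinearMap
  let P1S : WithConv (B →ₗ[k] C ⊗[k] B) :=
    toConv ((il'.comp pA).toLinearMap ∘ₗ HopfAlgebra.antipode k (A := B))
  let IS : WithConv (B →ₗ[k] C ⊗[k] B) :=
    toConv (ir'.toLinearMap ∘ₗ HopfAlgebra.antipode k (A := B))
  let DS : WithConv (B →ₗ[k] C ⊗[k] B) :=
    toConv (Dp.toLinearMap ∘ₗ HopfAlgebra.antipode k (A := B))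
  let sp : B →ₗ[k] B := s ∘ₗ (p : B →ₗ[k] C)
  have hD : toConv Dp.toLinearMap = P1 * I := by
    refine WithConv.ext (LinearMap.ext fun b => ?_)
    have h : ∀ t : B ⊗[k] B, Algebra.TensorProduct.map pA (AlgHom.id k B) t =
        LinearMap.mul' k (C ⊗[k] B) (TensorProduct.map (il'.comp pA).toLinearMap
          ir'.toLinearMap t) := by
      intro t
      induction t with
      | zero => simp
      | add x y hx hy => simp only [map_add, hx, hy]
      | tmul x y =>
        rw [TensorProduct.map_tmul, LinearMap.mul'_apply]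
        change pA x ⊗ₜ[k] y = (pA x ⊗ₜ[k] (1 : B)) * ((1 : C) ⊗ₜ[k] y)
        rw [Algebra.TensorProduct.tmul_mul_tmul, mul_one, one_mul]
    exact h _
  have hsp : toConv (Dp.toLinearMap ∘ₗ sp) = P1 * toConv (ir'.toLinearMap ∘ₗ sp) := by
    refine WithConv.ext (LinearMap.ext fun b => ?_)
    have h0 : ∀ t : B ⊗[k] B, Algebra.TensorProduct.map pA (AlgHom.id k B) t =
        (p : B →ₗ[k] C).rTensor B t := fun _ => rfl
    have h1 : Dp (s (p b)) = s.lTensor C (Coalgebra.comul (R := k) (p b)) := by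
      rw [← hs]
      exact h0 _
    have h2 : TensorProduct.map (p : B →ₗ[k] C) (p : B →ₗ[k] C) (Coalgebra.comul (R := k) b) =
        Coalgebra.comul (R := k) (p b) := CoalgHomClass.map_comp_comul_apply p b
    have h3 : ∀ t : B ⊗[k] B, s.lTensor C (TensorProduct.map (p : B →ₗ[k] C)
        (p : B →ₗ[k] C) t) = LinearMap.mul' k (C ⊗[k] B) (TensorProduct.map
          (il'.comp pA).toLinearMap (ir'.toLinearMap ∘ₗ sp) t) := by
      intro t
      induction t with
      | zero => simp
      | add x y hx hy => simp only [map_add, hx, hy]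
      | tmul x y =>
        rw [TensorProduct.map_tmul, TensorProduct.map_tmul, LinearMap.mul'_apply,
          LinearMap.lTensor_tmul]
        change pA x ⊗ₜ[k] s (p y) = (pA x ⊗ₜ[k] (1 : B)) * ((1 : C) ⊗ₜ[k] s (p y))
        rw [Algebra.TensorProduct.tmul_mul_tmul, mul_one, one_mul]
    refine h1.trans ?_
    rw [← h2, h3]
    rfl
  have e1 : DS * toConv Dp.toLinearMap = 1 := compS_mul Dp
  have e2 : toConv Dp.toLinearMap * (IS * P1S) = 1 := by
    have h1 : I * IS = 1 := mul_compS ir'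
    have h2 : P1 * P1S = 1 := mul_compS (il'.comp pA)
    rw [hD, mul_assoc, ← mul_assoc I, h1, one_mul, h2]
  have e3 : DS = IS * P1S := left_inv_eq_right_inv e1 e2
  have e4 : toConv (Dp.toLinearMap ∘ₗ kap p s) = toConv (ir'.toLinearMap ∘ₗ kap p s) := by
    have h1 : toConv (Dp.toLinearMap ∘ₗ kap p s) = DS * toConv (Dp.toLinearMap ∘ₗ sp) :=
      comp_conv Dp _ _
    have h2 : toConv (ir'.toLinearMap ∘ₗ kap p s) = IS * toConv (ir'.toLinearMap ∘ₗ sp) :=
      comp_conv ir' _ _
    have h3 : P1S * P1 = 1 := compS_mul (il'.comp pA)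
    rw [h1, h2, e3, hsp, mul_assoc, ← mul_assoc P1S, h3, one_mul]
  exact LinearMap.congr_fun (congrArg ofConv e4) x

variable {A : Type u} [Ring A] [HopfAlgebra k A] (ι : A →ₐc[k] B)

/-- If `B` acts on `A` through `C` then the elements `S(x₁) s(p(x₂))` have the property `PP`. -/
theorem PP_kap (hs0 : ∀ c, p (s c) = c)
    (hs : ∀ c, (p : B →ₗ[k] C).rTensor B (Coalgebra.comul (R := k) (s c)) =
      s.lTensor C (Coalgebra.comul (R := k) c))
    (hact : ∀ b : B, p b = 0 → ∀ a : A, adj k b (ι a) = 0) (x : B) : PP ι (kap p s x) := by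
  intro a
  have e1 : adR k (ι a) = (adR k (ι a) ∘ₗ s) ∘ₗ (p : B →ₗ[k] C) := by
    refine LinearMap.ext fun b => ?_
    change adR k (ι a) b = adR k (ι a) (s (p b))
    rw [← sub_eq_zero, ← map_sub]
    exact hact _ (by rw [map_sub, hs0, sub_self]) a
  have e2 : (adR k (ι a) ∘ₗ s) 1 = ι a := by
    have h1 := LinearMap.congr_fun e1 1
    have h2 : ((adR k (ι a) ∘ₗ s) ∘ₗ (p : B →ₗ[k] C)) 1 = (adR k (ι a) ∘ₗ s) 1 := by
      change (adR k (ι a) ∘ₗ s) (p 1) = _
      rw [map_one]
    rw [h2] at h1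
    rw [← h1]
    exact adj_one (ι a)
  rw [e1, LinearMap.rTensor_comp, LinearMap.comp_apply, rT_kap p s hs, LinearMap.rTensor_tmul, e2]

/-- The kernel of `p` is contained in `B j(K⁺)` if `j(K)` contains all `S(x₁) s(p(x₂))`. -/
theorem ker_le_of (hs0 : ∀ c, p (s c) = c) {B1 : Type u} [Ring B1]
    [HopfAlgebra k B1] (j : B1 →ₐc[k] B) (hj : ∀ y, kap p s y ∈ Set.range j) (x : B)
    (hx : p x = 0) : x ∈ Jd j := by
  let κ' : B →ₗ[k] B := kap p s - (Algebra.linearMap k B) ∘ₗ Coalgebra.counit (R := k)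
  have h1 : ∀ y, κ' y ∈ Jd j := by
    intro y
    obtain ⟨z, hz⟩ := hj y
    have h3 : κ' y = j (z - algebraMap k B1 (Coalgebra.counit (R := k) y)) := by
      rw [map_sub, hz, AlgHomClass.commutes]
      rfl
    rw [h3]
    refine Ideal.subset_span ⟨_, ?_, rfl⟩
    rw [Set.mem_ofPred_eq, map_sub, Bialgebra.counit_algebraMap,
      ← Pool.Agent.Helper90.UN.map_counit j z, hz, counit_kap p s hs0, sub_self]
  have h4 : ∀ t : B ⊗[k] B, LinearMap.mul' k B (TensorProduct.map LinearMap.id κ' t) ∈ Jd j := by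
    intro t
    induction t with
    | zero => simp only [map_zero]; exact (Jd j).zero_mem
    | add x y hx hy => simp only [map_add]; exact (Jd j).add_mem hx hy
    | tmul x y =>
      rw [TensorProduct.map_tmul, LinearMap.mul'_apply]
      exact (Jd j).mul_mem_left _ (h1 y)
  have h5 : toConv (LinearMap.id : B →ₗ[k] B) * toConv κ' =
      toConv (s ∘ₗ (p : B →ₗ[k] C)) - toConv LinearMap.id := by
    have e : toConv κ' = toConv (kap p s) - 1 := rfl
    rw [e, mul_sub, id_kap, mul_one]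
  have h6 := LinearMap.congr_fun (congrArg ofConv h5) x
  have h7 : (toConv (s ∘ₗ (p : B →ₗ[k] C)) - toConv LinearMap.id).ofConv x = -x := by
    change s (p x) - x = -x
    rw [hx, map_zero, zero_sub]
  rw [h7] at h6
  have h8 : -x ∈ Jd j := by
    rw [← h6]
    exact h4 _
  rw [← neg_neg x]
  exact (Jd j).neg_mem h8

/-- The kernel of `p` is contained in the left ideal generated by the augmentation ideal of the
Hopf centralizer. -/
theorem ker_le [Module.Finite k B] (hs0 : ∀ c, p (s c) = c)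
    (hs : ∀ c, (p : B →ₗ[k] C).rTensor B (Coalgebra.comul (R := k) (s c)) =
      s.lTensor C (Coalgebra.comul (R := k) c))
    (hact : ∀ b : B, p b = 0 → ∀ a : A, adj k b (ι a) = 0) {B1 : Type u} [Ring B1]
    [HopfAlgebra k B1] (j : B1 →ₐc[k] B) (hj : Set.range j = (HC ι : Set B)) (x : B)
    (hx : p x = 0) : x ∈ Jd j := by
  refine ker_le_of p s hs0 j (fun y => ?_) x hx
  rw [hj]
  exact (PP_kap p s ι hs0 hs hact y).mem

end

end Pool.Agent.Helper56.SS
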