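import Pool.Agent.Helper56.SS.Sec
import Pool.Agent.Helper90.UN.Ad
import Pool.Agent.Helper90.UN.Main

/-!
# The antipode of a finite-dimensional Hopf algebra is bijective
-/

set_option linter.unusedSectionVars false
set_option autoImplicit false

open scoped TensorProduct
open WithConv
open Pool.Agent.Helper59.FG Pool.Agent.Helper90.FC Pool.Agent.Helper90.UN

namespace Pool.Agent.Helper56.SS

universe u

section

variable {k : Type u} [Field k] {B : Type u} [Ring B] [HopfAlgebra k B]

/-- The antipode is anticomultiplicative. -/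
theorem comul_antipode (x : B) : Coalgebra.comul (R := k) (HopfAlgebra.antipode k x) =
    TensorProduct.map (HopfAlgebra.antipode k) (HopfAlgebra.antipode k)
      (TensorProduct.comm k B B (Coalgebra.comul (R := k) x)) := by
  let D : WithConv (B →ₗ[k] B ⊗[k] B) := toConv (Bialgebra.comulAlgHom k B).toLinearMap
  let DS : WithConv (B →ₗ[k] B ⊗[k] B) :=
    toConv ((Bialgebra.comulAlgHom k B).toLinearMap ∘ₗ HopfAlgebra.antipode k (A := B))
  let Il : WithConv (B →ₗ[k] B ⊗[k] B) := toConv (il k B).toLinearMap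
  let Ir : WithConv (B →ₗ[k] B ⊗[k] B) := toConv (ir k B).toLinearMap
  let IlS : WithConv (B →ₗ[k] B ⊗[k] B) :=
    toConv ((il k B).toLinearMap ∘ₗ HopfAlgebra.antipode k (A := B))
  let IrS : WithConv (B →ₗ[k] B ⊗[k] B) :=
    toConv ((ir k B).toLinearMap ∘ₗ HopfAlgebra.antipode k (A := B))
  have e1 : DS * D = 1 := compS_mul _
  have hD : D = Il * Ir := comul_eq
  have e2 : D * (IrS * IlS) = 1 := by
    have h1 : Ir * IrS = 1 := mul_compS _
    have h2 : Il * IlS = 1 := mul_compS _
    rw [hD, mul_assoc, ← mul_assoc Ir, h1, one_mul, h2]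
  have e3 : DS = IrS * IlS := left_inv_eq_right_inv e1 e2
  have e4 := LinearMap.congr_fun (congrArg ofConv e3) x
  refine e4.trans ?_
  change LinearMap.mul' k (B ⊗[k] B) (TensorProduct.map
    ((ir k B).toLinearMap ∘ₗ HopfAlgebra.antipode k (A := B))
    ((il k B).toLinearMap ∘ₗ HopfAlgebra.antipode k (A := B)) (Coalgebra.comul (R := k) x)) = _
  generalize Coalgebra.comul (R := k) x = t
  induction t with
  | zero => simp
  | add x y hx hy => simp only [map_add, hx, hy]
  | tmul x y =>
    rw [TensorProduct.map_tmul, LinearMap.mul'_apply, TensorProduct.comm_tmul,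
      TensorProduct.map_tmul]
    change ((1 : B) ⊗ₜ[k] (HopfAlgebra.antipode k x)) *
      ((HopfAlgebra.antipode k y) ⊗ₜ[k] (1 : B)) = _
    rw [Algebra.TensorProduct.tmul_mul_tmul, mul_one, one_mul]

/-- The antipode of a finite-dimensional Hopf algebra is injective: the maps which factor through
`S` are a subalgebra of the convolution algebra, which contains `S`, hence its inverse `id`. -/
theorem antipode_inj [Module.Finite k B] :
    Function.Injective (HopfAlgebra.antipode k (A := B)) := by
  let S := HopfAlgebra.antipode k (A := B)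
  let E : WithConv (B →ₗ[k] B) := toConv S
  let N : Submodule k (WithConv (B →ₗ[k] B)) :=
    { carrier := {g | ∃ g' : B →ₗ[k] B, g.ofConv = g' ∘ₗ S}
      add_mem' := by
        rintro g h ⟨g', hg⟩ ⟨h', hh⟩
        refine ⟨g' + h', ?_⟩
        rw [WithConv.ofConv_add, hg, hh, LinearMap.add_comp]
      zero_mem' := ⟨0, rfl⟩
      smul_mem' := by
        rintro c g ⟨g', hg⟩
        refine ⟨c • g', ?_⟩
        rw [WithConv.ofConv_smul, hg, LinearMap.smul_comp] }
  have hmul : ∀ g h : WithConv (B →ₗ[k] B), g ∈ N → h ∈ N → g * h ∈ N := by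
    rintro g h ⟨g', hg⟩ ⟨h', hh⟩
    refine ⟨LinearMap.mul' k B ∘ₗ TensorProduct.map g' h' ∘ₗ
      (TensorProduct.comm k B B).toLinearMap ∘ₗ Coalgebra.comul, ?_⟩
    refine LinearMap.ext fun x => ?_
    have e : (g * h).ofConv x = LinearMap.mul' k B (TensorProduct.map g.ofConv h.ofConv
        (Coalgebra.comul (R := k) x)) := rfl
    rw [e, hg, hh]
    change _ = LinearMap.mul' k B (TensorProduct.map g' h' (TensorProduct.comm k B B
      (Coalgebra.comul (R := k) (HopfAlgebra.antipode k x))))
    rw [comul_antipode]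
    generalize Coalgebra.comul (R := k) x = t
    induction t with
    | zero => simp
    | add x y hx hy => simp only [map_add, hx, hy]
    | tmul x y => simp [S]
  have hE : E ∈ N := ⟨LinearMap.id, rfl⟩
  let L : N →ₗ[k] N :=
    { toFun := fun h => ⟨E * h.1, hmul E h.1 hE h.2⟩
      map_add' := fun g h => Subtype.ext (mul_add _ _ _)
      map_smul' := fun c g => Subtype.ext (mul_smul_comm _ _ _) }
  have hfin : Module.Finite k (WithConv (B →ₗ[k] B)) :=
    Module.Finite.equiv (WithConv.linearEquiv k (B →ₗ[k] B)).symm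
  have hid : toConv (LinearMap.id : B →ₗ[k] B) * E = 1 := LinearMap.id_mul_antipode
  have hinj : Function.Injective L := by
    intro g h hgh
    have h1 : E * g.1 = E * h.1 := congrArg Subtype.val hgh
    have h2 := congrArg (fun w => toConv (LinearMap.id : B →ₗ[k] B) * w) h1
    simp only [← mul_assoc, hid, one_mul] at h2
    exact Subtype.ext h2
  have hsurj : Function.Surjective L := LinearMap.injective_iff_surjective.1 hinj
  have h1N : (1 : WithConv (B →ₗ[k] B)) ∈ N := by
    refine ⟨(Algebra.linearMap k B) ∘ₗ Coalgebra.counit, LinearMap.ext fun x => ?_⟩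
    change algebraMap k B (Coalgebra.counit (R := k) x) =
      algebraMap k B (Coalgebra.counit (R := k) (HopfAlgebra.antipode k x))
    rw [HopfAlgebra.counit_antipode]
  obtain ⟨h, hh⟩ := hsurj ⟨1, h1N⟩
  have h3 : E * h.1 = 1 := congrArg Subtype.val hh
  have h4 : h.1 = toConv (LinearMap.id : B →ₗ[k] B) := by
    have h5 := congrArg (fun w => toConv (LinearMap.id : B →ₗ[k] B) * w) h3
    simp only [← mul_assoc, hid, one_mul, mul_one] at h5
    exact h5
  obtain ⟨g', hg'⟩ := h.2
  rw [h4] at hg'
  intro x y hxy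
  have h6 := LinearMap.congr_fun hg' x
  have h7 := LinearMap.congr_fun hg' y
  have h8 : g' (S x) = g' (S y) := congrArg g' hxy
  exact h6.trans (h8.trans h7.symm)

theorem antipode_bij [Module.Finite k B] :
    Function.Bijective (HopfAlgebra.antipode k (A := B)) :=
  ⟨antipode_inj, LinearMap.injective_iff_surjective.1 antipode_inj⟩

/-- A finite-dimensional Hopf subalgebra is a right linear retract. -/
theorem exists_retr' {K H : Type u} [Ring K] [Ring H] [HopfAlgebra k K] [HopfAlgebra k H]
    [Module.Finite k K] (φ : K →ₐc[k] H) (hφ : Function.Injective φ) :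
    ∃ r : H →ₗ[k] K, (∀ x, r (φ x) = x) ∧ ∀ x y, r (y * φ x) = r y * x := by
  obtain ⟨r, hr1, hr2⟩ := exists_retr φ hφ
  let e : K ≃ₗ[k] K := LinearEquiv.ofBijective (HopfAlgebra.antipode k (A := K)) antipode_bij
  have he : ∀ x, e x = HopfAlgebra.antipode k x := fun x => rfl
  refine ⟨e.symm.toLinearMap ∘ₗ r ∘ₗ HopfAlgebra.antipode k (A := H), fun x => ?_, fun x y => ?_⟩
  · change e.symm (r (HopfAlgebra.antipode k (φ x))) = x
    rw [LinearEquiv.symm_apply_eq, he, ← Pool.Agent.Helper90.UN.map_antipode, hr1]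
  · change e.symm (r (HopfAlgebra.antipode k (y * φ x))) =
      e.symm (r (HopfAlgebra.antipode k y)) * x
    rw [LinearEquiv.symm_apply_eq, he, HopfAlgebra.antipode_mul_antidistrib,
      ← Pool.Agent.Helper90.UN.map_antipode, hr2, HopfAlgebra.antipode_mul_antidistrib, ← he (e.symm _),
      LinearEquiv.apply_symm_apply]

end

end Pool.Agent.Helper56.SS
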