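import Pool.Agent.Helper90.FC.Res

/-!
# Coinduction of modules along a homomorphism of algebras

`co φ : ModuleCat K ⥤ ModuleCat H`, `M ↦ Hom_K(H, M)` for `φ : K → H`. It is exact if `H` is a
projective `K`-module.
-/

set_option linter.unusedSectionVars false
set_option autoImplicit false

open CategoryTheory CategoryTheory.Abelian CategoryTheory.Limits
open scoped ModuleCat TensorProduct
open Pool.Agent.Helper59.FG Pool.Agent.Helper90.FC

namespace Pool.Agent.Helper56.SS

universe u

section

variable {k : Type u} [Field k] {K H : Type u} [Ring K] [Ring H] [Bialgebra k K] [Bialgebra k H]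
variable (φ : K →ₐ[k] H)

/-- `Hom_K(H, M)` as a subspace of `Hom_k(H, M)`. -/
def CoS (M : ModuleCat.{u} K) : Submodule k (H →ₗ[k] M) where
  carrier := {g | ∀ (a : K) (h : H), g (φ a * h) = a • g h}
  add_mem' := fun {g g'} hg hg' a h => by
    rw [LinearMap.add_apply, LinearMap.add_apply, hg, hg', smul_add]
  zero_mem' := fun a h => by simp
  smul_mem' := fun c g hg a h => by
    rw [LinearMap.smul_apply, LinearMap.smul_apply, hg, smul_comm]

/-- `Hom_K(H, M)`. -/
def CoT (M : ModuleCat.{u} K) : Type u := CoS φ M

noncomputable instance (M : ModuleCat.{u} K) : AddCommGroup (CoT φ M) :=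
  inferInstanceAs (AddCommGroup (CoS φ M))

/-- The underlying function. -/
def CoT.fn {φ : K →ₐ[k] H} {M : ModuleCat.{u} K} (g : CoT φ M) : H →ₗ[k] M := g.1

theorem CoT.fn_mul {φ : K →ₐ[k] H} {M : ModuleCat.{u} K} (g : CoT φ M) (a : K) (h : H) :
    g.fn (φ a * h) = a • g.fn h := g.2 a h

theorem CoT.ext {φ : K →ₐ[k] H} {M : ModuleCat.{u} K} {g g' : CoT φ M}
    (h : ∀ x, g.fn x = g'.fn x) : g = g' := Subtype.ext (LinearMap.ext h)

theorem CoT.fn_add {φ : K →ₐ[k] H} {M : ModuleCat.{u} K} (g g' : CoT φ M) :
    (g + g').fn = g.fn + g'.fn := rfl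

theorem CoT.fn_zero {φ : K →ₐ[k] H} {M : ModuleCat.{u} K} : (0 : CoT φ M).fn = 0 := rfl

noncomputable instance (M : ModuleCat.{u} K) : Module H (CoT φ M) where
  smul b g := ⟨g.fn ∘ₗ LinearMap.mulRight k b, fun a h => by
    change g.fn (φ a * h * b) = a • g.fn (h * b)
    rw [mul_assoc, g.fn_mul]⟩
  one_smul g := CoT.ext fun x => by
    change g.fn (x * 1) = g.fn x
    rw [mul_one]
  mul_smul b b' g := CoT.ext fun x => by
    change g.fn (x * (b * b')) = g.fn (x * b * b')
    rw [mul_assoc]
  smul_zero b := CoT.ext fun x => rfl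
  smul_add b g g' := CoT.ext fun x => rfl
  add_smul b b' g := CoT.ext fun x => by
    change g.fn (x * (b + b')) = g.fn (x * b) + g.fn (x * b')
    rw [mul_add, map_add]
  zero_smul g := CoT.ext fun x => by
    change g.fn (x * 0) = 0
    rw [mul_zero, map_zero]

theorem CoT.fn_smul {φ : K →ₐ[k] H} {M : ModuleCat.{u} K} (b : H) (g : CoT φ M) (x : H) :
    (b • g).fn x = g.fn (x * b) := rfl

/-- Functoriality. -/
noncomputable def coMap {M N : ModuleCat.{u} K} (f : M ⟶ N) : CoT φ M →ₗ[H] CoT φ N where
  toFun g := ⟨f.hom.restrictScalars k ∘ₗ g.fn, fun a h => by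
    change f.hom (g.fn (φ a * h)) = a • f.hom (g.fn h)
    rw [g.fn_mul, map_smul]⟩
  map_add' g g' := CoT.ext fun x => map_add f.hom _ _
  map_smul' b g := CoT.ext fun x => rfl

theorem coMap_fn {M N : ModuleCat.{u} K} (f : M ⟶ N) (g : CoT φ M) (x : H) :
    (coMap φ f g).fn x = f.hom (g.fn x) := rfl

/-- Coinduction. -/
noncomputable def co : ModuleCat.{u} K ⥤ ModuleCat.{u} H where
  obj M := ModuleCat.of H (CoT φ M)
  map f := ModuleCat.ofHom (coMap φ f)
  map_id _ := rfl
  map_comp _ _ := rfl

instance co_additive : (co φ).Additive where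
  map_add {M N f g} := by
    refine ConcreteCategory.hom_ext _ _ fun x => ?_
    exact CoT.ext fun y => rfl

instance co_linear : (co φ).Linear k where
  map_smul {M N} f c := by
    refine ConcreteCategory.hom_ext _ _ fun x => ?_
    refine CoT.ext fun y => ?_
    change c • f.hom ((show CoT φ M from x).fn y) =
      (algebraMap k H c • (coMap φ f (show CoT φ M from x))).fn y
    rw [CoT.fn_smul, ← Algebra.commutes, ← Algebra.smul_def, map_smul, coMap_fn]

/-- An element of `Hom_K(H, M)` as a `K`-linear map. -/
noncomputable def CoT.toK {φ : K →ₐ[k] H} {M : ModuleCat.{u} K} (g : CoT φ M) :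
    (res φ).obj (ModuleCat.of H H) →ₗ[K] M where
  toFun x := g.fn (show H from x)
  map_add' x y := map_add g.fn _ _
  map_smul' a x := g.fn_mul a (show H from x)

/-- A `K`-linear map as an element of `Hom_K(H, M)`. -/
noncomputable def CoT.ofK {φ : K →ₐ[k] H} {M : ModuleCat.{u} K}
    (g : (res φ).obj (ModuleCat.of H H) →ₗ[K] M) : CoT φ M :=
  ⟨{ toFun := fun x => g (show (res φ).obj (ModuleCat.of H H) from x)
     map_add' := fun x y => map_add g _ _
     map_smul' := fun c x => by
      have h1 : (show (res φ).obj (ModuleCat.of H H) from c • x) =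
          (algebraMap k K c) • (show (res φ).obj (ModuleCat.of H H) from x) := by
        change c • x = φ (algebraMap k K c) * x
        rw [AlgHom.commutes, Algebra.smul_def]
      rw [h1, map_smul]
      rfl }, fun a h => map_smul g a (show (res φ).obj (ModuleCat.of H H) from h)⟩

theorem co_shortExact (hP : Module.Projective K ((res φ).obj (ModuleCat.of H H)))
    (S : ShortComplex (ModuleCat.{u} K)) (hS : S.ShortExact) : (S.map (co φ)).ShortExact := by
  have h1 : Function.Exact S.f.hom S.g.hom :=
    (ShortComplex.ShortExact.moduleCat_exact_iff_function_exact S).1 hS.exact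
  have h2 : Function.Injective S.f.hom := hS.moduleCat_injective_f
  have h3 : Function.Surjective S.g.hom := hS.moduleCat_surjective_g
  refine ModuleCat.shortComplex_shortExact _ ?_ ?_ ?_
  · intro g
    constructor
    · intro hg
      have hr : ∀ x : H, ∃ y, S.f.hom y = (show CoT φ S.X₂ from g).fn x := fun x =>
        (h1 _).1 (congrArg (fun w : CoT φ S.X₃ => w.fn x) hg)
      choose s hs using hr
      let s' : H →ₗ[k] S.X₁ :=
        { toFun := s
          map_add' := fun x y => h2 (by rw [hs, map_add, map_add, hs, hs])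
          map_smul' := fun c x => h2 (by
            have h4 : S.f.hom (c • s x) = c • S.f.hom (s x) :=
              map_smul (S.f.hom.restrictScalars k) c (s x)
            rw [hs, map_smul, RingHom.id_apply, h4, hs]) }
      refine ⟨(show CoT φ S.X₁ from ⟨s', fun a x => h2 ?_⟩), ?_⟩
      · change S.f.hom (s (φ a * x)) = S.f.hom (a • s x)
        rw [hs, map_smul, hs]
        exact CoT.fn_mul _ a x
      · exact CoT.ext fun x => hs x
    · rintro ⟨g', rfl⟩
      exact CoT.ext fun x => (h1 _).2 ⟨_, rfl⟩
  · intro g g' h
    refine CoT.ext fun x => h2 ?_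
    exact congrArg (fun w : CoT φ S.X₂ => w.fn x) h
  · intro g
    obtain ⟨l, hl⟩ := Module.projective_lifting_property S.g.hom
      (show CoT φ S.X₃ from g).toK h3
    refine ⟨(show CoT φ S.X₂ from CoT.ofK l), ?_⟩
    refine CoT.ext fun x => ?_
    exact LinearMap.congr_fun hl (show (res φ).obj (ModuleCat.of H H) from x)

theorem co_lim (hP : Module.Projective K ((res φ).obj (ModuleCat.of H H))) :
    PreservesFiniteLimits (co φ) := by
  have := ((Functor.exact_tfae (co φ)).out 0 3).1 (co_shortExact φ hP)
  exact this.1

theorem co_colim (hP : Module.Projective K ((res φ).obj (ModuleCat.of H H))) :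
    PreservesFiniteColimits (co φ) := by
  have := ((Functor.exact_tfae (co φ)).out 0 3).1 (co_shortExact φ hP)
  exact this.2

theorem co_finite [Module.Finite k K] [Module.Finite k H] (M : ModuleCat.{u} K)
    (hM : Module.Finite K M) : Module.Finite H ((co φ).obj M) := by
  have h1 : Module.Finite k M := Module.Finite.trans K M
  have h4 : Module.Finite k ((co φ).obj M) := by
    let f : ((co φ).obj M : ModuleCat.{u} H) →ₗ[k] (H →ₗ[k] M) :=
      { toFun := fun g => (show CoT φ M from g).fn
        map_add' := fun g g' => rfl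
        map_smul' := fun c g => by
          refine LinearMap.ext fun x => ?_
          change (algebraMap k H c • (show CoT φ M from g)).fn x = c • (show CoT φ M from g).fn x
          rw [CoT.fn_smul, ← Algebra.commutes, ← Algebra.smul_def, map_smul] }
    exact Module.Finite.of_injective f (fun g g' h => Subtype.ext h)
  exact Module.Finite.of_restrictScalars_finite k H ((co φ).obj M)

/-- The unit `M → Hom_K(H, M)`. -/
noncomputable def coUnit : 𝟭 (ModuleCat.{u} H) ⟶ res φ ⋙ co φ where
  app M := ModuleCat.ofHom (Y := ((res φ ⋙ co φ).obj M))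
    { toFun := fun m => (show CoT φ ((res φ).obj M) from
        ⟨{ toFun := fun x => (show (res φ).obj M from x • (show M from m))
           map_add' := fun x y => add_smul x y (show M from m)
           map_smul' := fun c x => by
            change (c • x) • (show M from m) = φ (algebraMap k K c) • (x • (show M from m))
            rw [AlgHom.commutes, algebraMap_smul, smul_assoc] },
         fun a x => mul_smul (φ a) x (show M from m)⟩)
      map_add' := fun m m' => CoT.ext fun x => smul_add x (show M from m) (show M from m')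
      map_smul' := fun b m => CoT.ext fun x => (mul_smul x b (show M from m)).symm }
  naturality {M N} f := by
    refine ConcreteCategory.hom_ext _ _ fun m => ?_
    refine CoT.ext fun x => ?_
    exact (map_smul f.hom x (show M from m)).symm

/-- The counit `Hom_K(H, M) → M`. -/
noncomputable def coCounit : co φ ⋙ res φ ⟶ 𝟭 (ModuleCat.{u} K) where
  app M := ModuleCat.ofHom (X := ((co φ ⋙ res φ).obj M))
    { toFun := fun g => (show CoT φ M from g).fn 1
      map_add' := fun g g' => rfl
      map_smul' := fun a g => by
        change (show CoT φ M from g).fn (1 * φ a) = a • (show CoT φ M from g).fn 1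
        rw [one_mul, ← CoT.fn_mul, mul_one] }
  naturality {M N} f := by
    refine ConcreteCategory.hom_ext _ _ fun g => ?_
    rfl

end

end Pool.Agent.Helper56.SS
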