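import Pool.Agent.Helper90.FC.DualB
import Pool.Agent.Helper59.FG.Mods

/-!
# The dual Hopf algebra, and colinear sections

The dual of a finite-dimensional Hopf algebra is a Hopf algebra. As it is self-injective, every
surjective homomorphism `p : B → C` of finite-dimensional Hopf algebras has a left `C`-colinear
section `s`: `p(s(c)₁) ⊗ s(c)₂ = c₁ ⊗ s(c₂)`.
-/

set_option linter.unusedSectionVars false
set_option autoImplicit false

open scoped TensorProduct
open Pool.Agent.Helper59.FG Pool.Agent.Helper90.FC

namespace Pool.Agent.Helper56.SS

universe u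

section

variable (k : Type u) [Field k] {A : Type u} [Ring A] [HopfAlgebra k A]

/-- Evaluation of a product. -/
theorem evA_mul {ι : Type*} {b : A} (X : Coalgebra.Repr k b ι) (t : HD k A ⊗[k] HD k A) :
    (LinearMap.mul' k (HD k A) t).ofConv b =
      ∑ i ∈ X.index, evAA k (X.left i) (X.right i) t := by
  induction t with
  | zero => simp
  | add s t hs ht =>
    rw [map_add, WithConv.ofConv_add, LinearMap.add_apply, hs, ht, ← Finset.sum_add_distrib]
    simp only [map_add]
  | tmul f g =>
    rw [LinearMap.mul'_apply]
    exact X.convMul_apply f g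

/-- The antipode of the dual. -/
noncomputable def antD : HD k A →ₗ[k] HD k A where
  toFun f := WithConv.toConv (f.ofConv ∘ₗ HopfAlgebra.antipode k)
  map_add' _ _ := rfl
  map_smul' _ _ := rfl

theorem antD_apply (f : HD k A) (a : A) :
    (antD k f).ofConv a = f.ofConv (HopfAlgebra.antipode k a) := rfl

theorem evAA_antL (b b' : A) (t : HD k A ⊗[k] HD k A) :
    evAA k b b' ((antD k).rTensor _ t) = evAA k (HopfAlgebra.antipode k b) b' t := by
  induction t with
  | zero => simp
  | add s t hs ht => simp only [map_add, hs, ht]
  | tmul f g => rw [LinearMap.rTensor_tmul, evAA_tmul, evAA_tmul, antD_apply]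

theorem evAA_antR (b b' : A) (t : HD k A ⊗[k] HD k A) :
    evAA k b b' ((antD k).lTensor _ t) = evAA k b (HopfAlgebra.antipode k b') t := by
  induction t with
  | zero => simp
  | add s t hs ht => simp only [map_add, hs, ht]
  | tmul f g => rw [LinearMap.lTensor_tmul, evAA_tmul, evAA_tmul, antD_apply]

/-- The Hopf algebra structure on the dual. -/
noncomputable instance hopfD [Module.Finite k A] : HopfAlgebra k (HD k A) where
  antipode := antD k
  mul_antipode_rTensor_comul := by
    refine LinearMap.ext fun f => DualB_ev_ext k fun b => ?_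
    have X := Coalgebra.Repr.arbitrary k b
    have h1 := evA_mul k X ((antD k).rTensor _ (Coalgebra.comul (R := k) f))
    simp only [evAA_antL, comulD_spec] at h1
    refine h1.trans ?_
    rw [← map_sum, HopfAlgebra.sum_antipode_mul_eq_algebraMap_counit X,
      Algebra.algebraMap_eq_smul_one, map_smul, smul_eq_mul, mul_comm]
    rfl
  mul_antipode_lTensor_comul := by
    refine LinearMap.ext fun f => DualB_ev_ext k fun b => ?_
    have X := Coalgebra.Repr.arbitrary k b
    have h1 := evA_mul k X ((antD k).lTensor _ (Coalgebra.comul (R := k) f))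
    simp only [evAA_antR, comulD_spec] at h1
    refine h1.trans ?_
    rw [← map_sum, HopfAlgebra.sum_mul_antipode_eq_algebraMap_counit X,
      Algebra.algebraMap_eq_smul_one, map_smul, smul_eq_mul, mul_comm]
    rfl

end

end Pool.Agent.Helper56.SS
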