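import Pool.Agent.Helper59.FG.Mods

/-!
# Finite-dimensional Hopf algebras are projective over Hopf subalgebras

Let `φ : K → H` be an injective homomorphism of finite-dimensional Hopf algebras. Then `H` is a
projective `K`-module.

Proof. `K` is injective as a module over itself, so `H = K ⊕ Q` as a `K`-module. Hence, for all `r`,
there is an `H`-module `V` of dimension `d ^ r`, `d = dim H`, which over `K` is the sum of a
projective module and a module of dimension `(d - dim K) ^ r`. As `H ⊗ V` is a free `H`-module of
rank `d ^ r`, the `K`-module `H ^ (d ^ r)` is the sum of a projective module `P` and a module `W` of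
dimension `d (d - dim K) ^ r`. For large `r` we have `d * dim W < d ^ r`, and among the
maps `h ↦ (c_i h)`, `c ∈ k ^ (d ^ r)`, there is a nonzero one with image in `P`; so `H` is a retract
of `P`.
-/

set_option linter.unusedSectionVars false
set_option autoImplicit false

open scoped TensorProduct
open Pool.Agent.Helper59.FG

namespace Pool.Agent.Helper56.SS

universe u

section Pig

variable {k : Type u} [Field k] {R : Type u} [Ring R] [Algebra k R]
variable {M P W : Type u} [AddCommGroup M] [Module k M] [Module R M] [IsScalarTower k R M]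
    [AddCommGroup P] [Module k P] [Module R P] [IsScalarTower k R P]
    [AddCommGroup W] [Module k W] [Module R W] [IsScalarTower k R W]

/-- If `M ^ n` is the sum of a projective module and of a module `W` with
`dim M * dim W < n`, then `M` is projective. -/
theorem proj_of_pow [Module.Finite k M] [Module.Finite k W] (n : ℕ)
    (e : (Fin n → M) ≃ₗ[R] P × W) (hP : Module.Projective R P)
    (hn : Module.finrank k M * Module.finrank k W < n) : Module.Projective R M := by
  let ek : (Fin n → M) →ₗ[k] P × W := e.toLinearMap.restrictScalars k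
  let Φ : (Fin n → k) →ₗ[k] (M →ₗ[k] W) :=
    { toFun := fun c => LinearMap.snd k P W ∘ₗ ek ∘ₗ LinearMap.pi fun i => c i • LinearMap.id
      map_add' := fun c d => by
        refine LinearMap.ext fun m => ?_
        have h : (LinearMap.pi fun i => (c + d) i • (LinearMap.id : M →ₗ[k] M)) m =
            (LinearMap.pi fun i => c i • (LinearMap.id : M →ₗ[k] M)) m +
            (LinearMap.pi fun i => d i • (LinearMap.id : M →ₗ[k] M)) m := by
          funext i
          simp [add_smul]
        rw [LinearMap.comp_apply, LinearMap.comp_apply, h, map_add, map_add]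
        rfl
      map_smul' := fun r c => by
        refine LinearMap.ext fun m => ?_
        have h : (LinearMap.pi fun i => (r • c) i • (LinearMap.id : M →ₗ[k] M)) m =
            r • (LinearMap.pi fun i => c i • (LinearMap.id : M →ₗ[k] M)) m := by
          funext i
          simp [mul_smul]
        rw [LinearMap.comp_apply, LinearMap.comp_apply, h, map_smul, map_smul]
        rfl }
  have hdim : Module.finrank k (M →ₗ[k] W) < Module.finrank k (Fin n → k) := by
    rw [Module.finrank_linearMap, Module.finrank_fin_fun]
    exact hn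
  obtain ⟨c, hc, hc0⟩ := (Submodule.ne_bot_iff _).1 (LinearMap.ker_ne_bot_of_finrank_lt hdim (f := Φ))
  obtain ⟨i, hi⟩ : ∃ i, c i ≠ 0 := by
    by_contra hall
    push Not at hall
    exact hc0 (funext hall)
  let ι : M →ₗ[R] (Fin n → M) := LinearMap.pi fun j => c j • LinearMap.id
  have h2 : ∀ m, (e (ι m)).2 = 0 := fun m => by
    have := LinearMap.congr_fun (LinearMap.mem_ker.1 hc) m
    exact this
  let u : M →ₗ[R] P := LinearMap.fst R P W ∘ₗ e.toLinearMap ∘ₗ ι
  let v : P →ₗ[R] M := (c i)⁻¹ • (LinearMap.proj i ∘ₗ e.symm.toLinearMap ∘ₗ LinearMap.inl R P W)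
  refine Module.Projective.of_split u v (LinearMap.ext fun m => ?_)
  have h3 : ((e (ι m)).1, (0 : W)) = e (ι m) := Prod.ext rfl (h2 m).symm
  change (c i)⁻¹ • (e.symm ((e (ι m)).1, (0 : W))) i = m
  rw [h3, e.symm_apply_apply]
  change (c i)⁻¹ • (c i • m) = m
  rw [smul_smul, inv_mul_cancel₀ hi, one_smul]

end Pig

section Restr

variable {k : Type u} [Field k] {K H : Type u} [Ring K] [Ring H] [Bialgebra k K] [Bialgebra k H]

/-- An `H`-module as a `K`-module, along `φ : K → H` (type synonym). -/
def Rs (_φ : K →ₐc[k] H) (V : Type u) : Type u := V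

variable (φ : K →ₐc[k] H)
variable (V V' : Type u) [AddCommGroup V] [Module k V] [Module H V] [IsScalarTower k H V]
    [AddCommGroup V'] [Module k V'] [Module H V'] [IsScalarTower k H V']

local instance instRsAdd : AddCommGroup (Rs φ V) := inferInstanceAs (AddCommGroup V)
local instance instRsMod : Module k (Rs φ V) := inferInstanceAs (Module k V)
local instance instRsModK : Module K (Rs φ V) := Module.compHom V (φ : K →+* H)

theorem Rs.smul_def (a : K) (x : Rs φ V) : a • x = (show Rs φ V from φ a • (show V from x)) := rfl

local instance instRsTower : IsScalarTower k K (Rs φ V) where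
  smul_assoc c a x := by
    change φ (c • a) • (show V from x) = c • (φ a • (show V from x))
    rw [map_smul, smul_assoc]

local instance instRsFin [Module.Finite k V] : Module.Finite k (Rs φ V) :=
  inferInstanceAs (Module.Finite k V)

/-- An `H`-linear equivalence as a `K`-linear equivalence. -/
def Rs.equiv {V V' : Type u} [AddCommGroup V] [Module k V] [Module H V] [IsScalarTower k H V]
    [AddCommGroup V'] [Module k V'] [Module H V'] [IsScalarTower k H V'] (e : V ≃ₗ[H] V') :
    Rs φ V ≃ₗ[K] Rs φ V' where
  toFun := e
  invFun := e.symm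
  left_inv := e.left_inv
  right_inv := e.right_inv
  map_add' := e.map_add
  map_smul' a x := e.map_smul (φ a) x

/-- Restriction commutes with tensor products. -/
noncomputable def rsTen : Ten k K (Rs φ V) (Rs φ V') ≃ₗ[K] Rs φ (Ten k H V V') :=
  mkEquiv (k := k) (LinearEquiv.refl k (V ⊗[k] V')) (fun a x => by
    have key : ∀ t : K ⊗[k] K, act2 k K (Rs φ V) (Rs φ V') t =
        act2 k H V V' (TensorProduct.map (φ : K →ₗ[k] H) (φ : K →ₗ[k] H) t) := by
      intro t
      induction t with
      | zero => rw [map_zero, map_zero, map_zero]; rfl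
      | add s t hs ht => rw [map_add, map_add, map_add, hs, ht]; rfl
      | tmul b c =>
        refine TensorProduct.ext' fun v v' => ?_
        rw [TensorProduct.map_tmul]
        exact (act2_tmul k K (X := Rs φ V) (Y := Rs φ V') b c v v').trans
          (act2_tmul k H (X := V) (Y := V') (φ b) (φ c) v v').symm
    have h := congrFun (congrArg DFunLike.coe (key (Coalgebra.comul (R := k) a))) x
    have h2 : TensorProduct.map (φ : K →ₗ[k] H) (φ : K →ₗ[k] H) (Coalgebra.comul (R := k) a) =
        Coalgebra.comul (R := k) (φ a) := CoalgHomClass.map_comp_comul_apply φ a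
    rw [h2] at h
    exact h)

end Restr

section Growth

attribute [local instance] instRsAdd instRsMod instRsModK instRsTower instRsFin

variable {k : Type u} [Field k] {K H : Type u} [Ring K] [Ring H] [HopfAlgebra k K] [HopfAlgebra k H]
    [Module.Finite k K] [Module.Finite k H]

/-- `H` splits as a `K`-module. -/
theorem exists_Q (φ : K →ₐc[k] H) (hφ : Function.Injective φ) :
    ∃ (Q : Type u) (_ : AddCommGroup Q) (_ : Module k Q) (_ : Module K Q) (_ : IsScalarTower k K Q)
      (_ : Rs φ H ≃ₗ[K] K × Q), Module.Finite k Q ∧
        Module.finrank k K + Module.finrank k Q = Module.finrank k H := by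
  let f : K →ₗ[K] Rs φ H :=
    { toFun := fun a => (show Rs φ H from φ a)
      map_add' := fun a b => map_add φ a b
      map_smul' := fun a b => by
        change φ (a * b) = φ a * φ b
        exact map_mul φ a b }
  have hf : Function.Injective f := hφ
  obtain ⟨p, hp⟩ := inj_split (self_injective k K) f hf
  let Q := LinearMap.ker p
  have hsc : IsScalarTower k K Q := ⟨fun c a x => Subtype.ext (smul_assoc c a (x : Rs φ H))⟩
  let e : Rs φ H ≃ₗ[K] K × Q :=
    { toFun := fun x => (p x, ⟨x - f (p x), by
        rw [LinearMap.mem_ker, map_sub, hp, sub_self]⟩)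
      map_add' := fun x y => by
        refine Prod.ext (map_add p x y) (Subtype.ext ?_)
        change x + y - f (p (x + y)) = (x - f (p x)) + (y - f (p y))
        rw [map_add, map_add]
        abel
      map_smul' := fun a x => by
        refine Prod.ext (map_smul p a x) (Subtype.ext ?_)
        change a • x - f (p (a • x)) = a • (x - f (p x))
        rw [map_smul, map_smul, smul_sub]
      invFun := fun y => f y.1 + (y.2 : Rs φ H)
      left_inv := fun x => by
        change f (p x) + (x - f (p x)) = x
        abel
      right_inv := fun y => by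
        have h2 : p (y.2 : Rs φ H) = 0 := LinearMap.mem_ker.1 y.2.2
        refine Prod.ext ?_ (Subtype.ext ?_)
        · change p (f y.1 + (y.2 : Rs φ H)) = y.1
          rw [map_add, hp, h2, add_zero]
        · change f y.1 + (y.2 : Rs φ H) - f (p (f y.1 + (y.2 : Rs φ H))) = y.2
          rw [map_add, hp, h2, add_zero]
          abel }
  have hfin : Module.Finite k Q := by
    have h1 : Function.Injective ((Submodule.subtype Q).restrictScalars k) :=
      Subtype.val_injective
    exact Module.Finite.of_injective _ h1
  refine ⟨Q, inferInstance, inferInstance, inferInstance, hsc, e, hfin, ?_⟩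
  rw [← Module.finrank_prod]
  have he := LinearEquiv.finrank_eq (e.restrictScalars k)
  exact he.symm

/-- The growth lemma. -/
theorem growth (φ : K →ₐc[k] H) (hφ : Function.Injective φ) (q : ℕ)
    (hq : Module.finrank k K + q = Module.finrank k H) (r : ℕ) :
    ∃ (V : Type u) (_ : AddCommGroup V) (_ : Module k V) (_ : Module H V) (_ : IsScalarTower k H V)
      (P W : Type u) (_ : AddCommGroup P) (_ : Module k P) (_ : Module K P)
      (_ : IsScalarTower k K P) (_ : AddCommGroup W) (_ : Module k W) (_ : Module K W)
      (_ : IsScalarTower k K W) (_ : Rs φ V ≃ₗ[K] P × W), Module.Finite k V ∧ Module.Finite k P ∧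
      Module.Finite k W ∧ Module.Projective K P ∧ Module.finrank k V = Module.finrank k H ^ r ∧
      Module.finrank k W = q ^ r := by
  induction r with
  | zero =>
    let e : Rs φ (Triv k H) ≃ₗ[K] (PUnit.{u + 1} × Triv k K) :=
      { toFun := fun x => (PUnit.unit, x)
        invFun := fun y => y.2
        left_inv := fun x => rfl
        right_inv := fun y => rfl
        map_add' := fun x y => rfl
        map_smul' := fun a x => by
          refine Prod.ext rfl ?_
          change Coalgebra.counit (R := k) (φ a) * (show k from x) =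
            Coalgebra.counit (R := k) a * (show k from x)
          rw [CoalgHomClass.counit_comp_apply] }
    refine ⟨Triv k H, inferInstance, inferInstance, inferInstance, inferInstance,
      PUnit.{u + 1}, Triv k K, inferInstance, inferInstance, inferInstance, inferInstance,
      inferInstance, inferInstance, inferInstance, inferInstance, e,
      inferInstanceAs (Module.Finite k k), inferInstance, inferInstanceAs (Module.Finite k k),
      inferInstance, ?_, ?_⟩
    · rw [pow_zero]
      exact Module.finrank_self k
    · rw [pow_zero]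
      exact Module.finrank_self k
  | succ r ih =>
    obtain ⟨V, _, _, _, _, P, W, _, _, _, _, _, _, _, _, e, hV, hP, hW, hPp, hd, hw⟩ := ih
    obtain ⟨Q, _, _, _, _, eQ, hQ, hQd⟩ := exists_Q φ hφ
    have hPf : Module.Finite K P := Module.Finite.of_restrictScalars_finite k K P
    have hKf : Module.Finite K K := inferInstance
    let e1 : Rs φ (Ten k H H V) ≃ₗ[K] Ten k K (Rs φ H) (Rs φ V) := (rsTen φ H V).symm
    let e2 : Ten k K (Rs φ H) (Rs φ V) ≃ₗ[K] Ten k K (K × Q) (P × W) := Ten.congr eQ e
    let e3 : Ten k K (K × Q) (P × W) ≃ₗ[K] Ten k K K (P × W) × Ten k K Q (P × W) := Ten.prodLeft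
    let e4 : Ten k K Q (P × W) ≃ₗ[K] Ten k K Q P × Ten k K Q W := Ten.prodRight
    let e5 : (Ten k K K (P × W) × Ten k K Q (P × W)) ≃ₗ[K]
        (Ten k K K (P × W) × (Ten k K Q P × Ten k K Q W)) :=
      LinearEquiv.prodCongr (LinearEquiv.refl K (Ten k K K (P × W))) e4
    let e6 : (Ten k K K (P × W) × (Ten k K Q P × Ten k K Q W)) ≃ₗ[K]
        ((Ten k K K (P × W) × Ten k K Q P) × Ten k K Q W) :=
      (LinearEquiv.prodAssoc K _ _ _).symm
    have hp1 : Module.Projective K (Ten k K K (P × W)) := proj_ten_left
    have hp2 : Module.Projective K (Ten k K Q P) := proj_ten_right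
    refine ⟨Ten k H H V, inferInstance, inferInstance, inferInstance, inferInstance,
      Ten k K K (P × W) × Ten k K Q P, Ten k K Q W, inferInstance, inferInstance, inferInstance,
      inferInstance, inferInstance, inferInstance, inferInstance, inferInstance,
      e1 ≪≫ₗ e2 ≪≫ₗ e3 ≪≫ₗ e5 ≪≫ₗ e6, inferInstance, inferInstance, inferInstance, inferInstance,
      ?_, ?_⟩
    · rw [pow_succ', ← hd]
      exact Module.finrank_tensorProduct
    · have : Module.finrank k Q = q := by omega
      rw [pow_succ', ← hw, ← this]
      exact Module.finrank_tensorProduct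

theorem exists_large (d q : ℕ) (h : q < d) : ∃ r : ℕ, d * (d * q ^ r) < d ^ r := by
  have hd : (0 : ℝ) < d := by
    have : 0 < d := by omega
    exact_mod_cast this
  have h1 : (q : ℝ) / d < 1 := by
    rw [div_lt_one hd]
    exact_mod_cast h
  have h0 : (0 : ℝ) ≤ (q : ℝ) / d := by positivity
  obtain ⟨r, hr⟩ := exists_pow_lt_of_lt_one (show (0 : ℝ) < 1 / (d * d) by positivity) h1
  refine ⟨r, ?_⟩
  rw [div_pow, div_lt_div_iff₀ (by positivity) (by positivity)] at hr
  have h2 : ((d * (d * q ^ r) : ℕ) : ℝ) < ((d ^ r : ℕ) : ℝ) := by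
    push_cast
    linarith
  exact_mod_cast h2

/-- A finite-dimensional Hopf algebra is a projective module over its Hopf subalgebras. -/
theorem nz (φ : K →ₐc[k] H) (hφ : Function.Injective φ) : Module.Projective K (Rs φ H) := by
  obtain ⟨Q, _, _, _, _, eQ, hQ, hQd⟩ := exists_Q φ hφ
  have hK : 0 < Module.finrank k K := by
    have : Nontrivial K := by
      refine ⟨⟨0, 1, fun h => ?_⟩⟩
      have := congrArg (Coalgebra.counit (R := k) (A := K)) h
      rw [map_zero, Bialgebra.counit_one] at this
      exact zero_ne_one this
    exact Module.finrank_pos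
  set d := Module.finrank k H with hd
  set q := Module.finrank k Q with hq
  obtain ⟨r, hr⟩ := exists_large d q (by omega)
  obtain ⟨V, _, _, _, _, P, W, _, _, _, _, _, _, _, _, e, hV, hP, hW, hPp, hVd, hWd⟩ :=
    growth φ hφ q hQd r
  have hPf : Module.Finite K P := Module.Finite.of_restrictScalars_finite k K P
  let n := Module.finrank k V
  let e0 : (Fin n → Rs φ H) ≃ₗ[K] Rs φ (Fin n → H) :=
    { toFun := fun x => x
      invFun := fun x => x
      left_inv := fun x => rfl
      right_inv := fun x => rfl
      map_add' := fun x y => rfl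
      map_smul' := fun a x => rfl }
  let e1 : Rs φ (Fin n → H) ≃ₗ[K] Rs φ (H ⊗[k] V) :=
    Rs.equiv φ ((Module.finBasis k V).baseChange H).equivFun.symm
  let e2 : Rs φ (H ⊗[k] V) ≃ₗ[K] Rs φ (Ten k H H V) := Rs.equiv φ (Ten.freeEquiv k H V)
  let e3 : Rs φ (Ten k H H V) ≃ₗ[K] Ten k K (Rs φ H) (Rs φ V) := (rsTen φ H V).symm
  let e4 : Ten k K (Rs φ H) (Rs φ V) ≃ₗ[K] Ten k K (Rs φ H) (P × W) :=
    Ten.congr (LinearEquiv.refl K (Rs φ H)) e
  let e5 : Ten k K (Rs φ H) (P × W) ≃ₗ[K] Ten k K (Rs φ H) P × Ten k K (Rs φ H) W := Ten.prodRight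
  have hp : Module.Projective K (Ten k K (Rs φ H) P) := proj_ten_right
  refine proj_of_pow (k := k) n (e0 ≪≫ₗ e1 ≪≫ₗ e2 ≪≫ₗ e3 ≪≫ₗ e4 ≪≫ₗ e5) hp ?_
  have h1 : Module.finrank k (Ten k K (Rs φ H) W) = d * q ^ r := by
    have : Module.finrank k (Ten k K (Rs φ H) W) = Module.finrank k (Rs φ H) *
        Module.finrank k W := Module.finrank_tensorProduct
    rw [this, hWd]
    rfl
  have h2 : Module.finrank k (Rs φ H) = d := rfl
  rw [h1, h2]
  change _ < Module.finrank k V
  rw [hVd]
  exact hr

end Growth

end Pool.Agent.Helper56.SS
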