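import Pool.Agent.Helper56.SS.Shap
import Pool.Agent.Helper90.UN.Main

/-!
# The Reynolds operator

Let `φ : K → B` be a homomorphism of Hopf algebras and `t ∈ B` an element with `ε(t) = 1` and
`b t - ε(b) t ∈ B φ(K⁺)` for all `b`. Then `g ↦ ∑ t₁ g(S(t₂))` is a natural `B`-linear retraction of
`M → Hom_K(B, M)`, for `B`-modules `M`.
-/

set_option linter.unusedSectionVars false
set_option autoImplicit false

open CategoryTheory CategoryTheory.Abelian CategoryTheory.Limits
open scoped ModuleCat TensorProduct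
open Pool.Agent.Helper59.FG Pool.Agent.Helper90.FC

namespace Pool.Agent.Helper56.SS

universe u

section

variable {k : Type u} [Field k] {B : Type u} [Ring B] [HopfAlgebra k B]

/-- `f ↦ a f(S(b) -)`. -/
noncomputable def hm (M : ModuleCat.{u} B) (a b : B) : Module.End k (B →ₗ[k] M) where
  toFun f := (Algebra.lsmul k k M a) ∘ₗ f ∘ₗ (LinearMap.mulLeft k (HopfAlgebra.antipode k b))
  map_add' f g := by
    ext m
    simp
  map_smul' c f := by
    ext m
    exact (Algebra.lsmul k k M a).map_smul c (f (HopfAlgebra.antipode k b * m))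

theorem hm_apply (M : ModuleCat.{u} B) (a b : B) (f : B →ₗ[k] M) (m : B) :
    hm M a b f m = a • f (HopfAlgebra.antipode k b * m) := rfl

/-- The action of `B ⊗ B`. -/
noncomputable def hm2 (M : ModuleCat.{u} B) : B ⊗[k] B →ₗ[k] Module.End k (B →ₗ[k] M) :=
  TensorProduct.lift (LinearMap.mk₂ k (hm M)
    (fun a a' b => by
      ext f m
      simp [hm_apply, add_smul])
    (fun c a b => by
      ext f m
      simp [hm_apply, smul_assoc])
    (fun a b b' => by
      ext f m
      simp [hm_apply, add_mul])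
    (fun c a b => by
      ext f m
      have h : HopfAlgebra.antipode k (c • b) * m = c • (HopfAlgebra.antipode k b * m) := by
        rw [LinearMap.map_smul (HopfAlgebra.antipode k), smul_mul_assoc]
      rw [hm_apply, h, LinearMap.map_smul f]
      exact (Algebra.lsmul k k M a).map_smul c (f (HopfAlgebra.antipode k b * m))))

theorem hm2_tmul (M : ModuleCat.{u} B) (a b : B) :
    hm2 (k := k) M (a ⊗ₜ b) = hm M a b := by
  simp [hm2]

theorem hm2_mul (M : ModuleCat.{u} B) (s t : B ⊗[k] B) :
    hm2 M (s * t) = hm2 M s * hm2 M t := by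
  induction s using TensorProduct.induction_on with
  | zero => simp
  | add s s' hs hs' => rw [add_mul, map_add, map_add, hs, hs', add_mul]
  | tmul a b =>
    induction t using TensorProduct.induction_on with
    | zero => simp
    | add t t' ht ht' => rw [mul_add, map_add, map_add, ht, ht', mul_add]
    | tmul c d =>
      rw [Algebra.TensorProduct.tmul_mul_tmul, hm2_tmul, hm2_tmul, hm2_tmul]
      ext f m
      rw [Module.End.mul_apply, hm_apply, hm_apply, hm_apply,
        HopfAlgebra.antipode_mul_antidistrib, mul_smul, mul_assoc]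

variable (k) in
/-- The action of `B` on `Hom_k(B, M)`: `(a f)(x) = ∑ a₁ f(S(a₂) x)`. -/
noncomputable def hmA (M : ModuleCat.{u} B) : B →ₐ[k] Module.End k (B →ₗ[k] M) :=
  AlgHom.ofLinearMap (hm2 M ∘ₗ Coalgebra.comul)
    (by
      rw [LinearMap.comp_apply, Bialgebra.comul_one, Algebra.TensorProduct.one_def, hm2_tmul]
      ext f m
      rw [hm_apply, HopfAlgebra.antipode_one, one_smul, one_mul]
      rfl)
    (fun a b => by
      rw [LinearMap.comp_apply, Bialgebra.comul_mul, hm2_mul]
      rfl)

theorem hmA_apply (M : ModuleCat.{u} B) (a : B) (f : B →ₗ[k] M) :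
    hmA k M a f = hm2 M (Coalgebra.comul a) f := rfl

/-- `a ⊗ b ↦ a f(b)`. -/
noncomputable def ps {M : ModuleCat.{u} B} (f : B →ₗ[k] M) : B ⊗[k] B →ₗ[k] M :=
  TensorProduct.lift (((Algebra.lsmul k k M).toLinearMap.flip.compr₂ LinearMap.id) ∘ₗ f).flip

theorem ps_tmul {M : ModuleCat.{u} B} (f : B →ₗ[k] M) (a b : B) :
    ps f (a ⊗ₜ b) = a • f b := rfl

/-- `b ⊗ c ↦ (b f)(c)`. -/
noncomputable def ev2 {M : ModuleCat.{u} B} (f : B →ₗ[k] M) : B ⊗[k] B →ₗ[k] M :=
  TensorProduct.lift ((LinearMap.applyₗ (R := k) f) ∘ₗ (hmA k M).toLinearMap)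

theorem ev2_tmul {M : ModuleCat.{u} B} (f : B →ₗ[k] M) (b c : B) :
    ev2 f (b ⊗ₜ c) = hmA k M b f c := rfl

theorem ev2_comul {M : ModuleCat.{u} B} (f : B →ₗ[k] M) (b : B) :
    ev2 f (Coalgebra.comul (R := k) b) = b • f 1 := by
  have h1 : ∀ t : B ⊗[k] B, ev2 f t =
      ps f (LinearMap.lTensor B (LinearMap.mul' k B ∘ₗ
        (HopfAlgebra.antipode k).rTensor B) (TensorProduct.assoc k B B B
          (Coalgebra.comul.rTensor B t))) := by
    intro t
    induction t using TensorProduct.induction_on with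
    | zero => simp
    | add s t hs ht => simp only [map_add, hs, ht]
    | tmul b c =>
      rw [ev2_tmul, hmA_apply, LinearMap.rTensor_tmul]
      induction Coalgebra.comul (R := k) b using TensorProduct.induction_on with
      | zero => simp
      | add s t hs ht =>
        simp only [map_add, LinearMap.add_apply, TensorProduct.add_tmul, hs, ht]
      | tmul b' b'' =>
        rw [hm2_tmul, hm_apply, TensorProduct.assoc_tmul, LinearMap.lTensor_tmul, ps_tmul]
        simp
  have key : LinearMap.lTensor B (LinearMap.mul' k B ∘ₗ (HopfAlgebra.antipode k).rTensor B)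
      (Coalgebra.comul.lTensor B (Coalgebra.comul (R := k) b)) = b ⊗ₜ 1 := by
    rw [← LinearMap.comp_apply, ← LinearMap.lTensor_comp,
      LinearMap.comp_assoc, HopfAlgebra.mul_antipode_rTensor_comul, LinearMap.lTensor_comp,
      LinearMap.comp_apply, Coalgebra.lTensor_counit_comul, LinearMap.lTensor_tmul]
    simp
  rw [h1, Coalgebra.coassoc_apply, key, ps_tmul]

/-- Naturality of the action. -/
theorem hm2_nat {M N : ModuleCat.{u} B} (f : M ⟶ N) (t : B ⊗[k] B) (g : B →ₗ[k] M) :
    (f.hom.restrictScalars k) ∘ₗ (hm2 M t g) = hm2 N t ((f.hom.restrictScalars k) ∘ₗ g) := by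
  induction t using TensorProduct.induction_on with
  | zero => simp
  | add s t hs ht => simp only [map_add, LinearMap.add_apply, LinearMap.comp_add, hs, ht]
  | tmul a b =>
    rw [hm2_tmul, hm2_tmul]
    ext m
    rw [hm_apply, LinearMap.comp_apply, hm_apply, LinearMap.comp_apply]
    exact map_smul f.hom a _

/-- The action commutes with right multiplications. -/
theorem hm2_right {M : ModuleCat.{u} B} (t : B ⊗[k] B) (g : B →ₗ[k] M) (b x : B) :
    hm2 M t (g ∘ₗ LinearMap.mulRight k b) x = hm2 M t g (x * b) := by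
  induction t using TensorProduct.induction_on with
  | zero => simp
  | add s t hs ht => simp only [map_add, LinearMap.add_apply, hs, ht]
  | tmul a c =>
    rw [hm2_tmul, hm_apply, hm_apply, LinearMap.comp_apply, LinearMap.mulRight_apply, mul_assoc]

variable {K : Type u} [Ring K] [HopfAlgebra k K] (φ : K →ₐc[k] B)

/-- `K` acts trivially on `K`-linear maps. -/
theorem hmA_inv {M : ModuleCat.{u} B} (g : B →ₗ[k] M)
    (hg : ∀ (a : K) (x : B), g (φ a * x) = φ a • g x) (a : K) :
    hmA k M (φ a) g = Coalgebra.counit (R := k) a • g := by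
  refine LinearMap.ext fun x => ?_
  have h1 : ∀ t : K ⊗[k] K, hm2 M (TensorProduct.map (φ : K →ₗ[k] B) (φ : K →ₗ[k] B) t) g x =
      φ (LinearMap.mul' k K ((HopfAlgebra.antipode k).lTensor K t)) • g x := by
    intro t
    induction t using TensorProduct.induction_on with
    | zero => simp
    | add s t hs ht => simp only [map_add, LinearMap.add_apply, hs, ht, add_smul]
    | tmul b c =>
      rw [TensorProduct.map_tmul, hm2_tmul, hm_apply, LinearMap.lTensor_tmul,
        LinearMap.mul'_apply, map_mul φ, mul_smul, ← hg (HopfAlgebra.antipode k c) x,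
        Pool.Agent.Helper90.UN.map_antipode]
      rfl
  have h2 : TensorProduct.map (φ : K →ₗ[k] B) (φ : K →ₗ[k] B) (Coalgebra.comul (R := k) a) =
      Coalgebra.comul (R := k) (φ a) := CoalgHomClass.map_comp_comul_apply φ a
  rw [hmA_apply, ← h2, h1, HopfAlgebra.mul_antipode_lTensor_comul_apply, AlgHomClass.commutes,
    LinearMap.smul_apply, algebraMap_smul]

/-- The left ideal `B φ(K⁺)`. -/
def Jd (φ : K →ₐc[k] B) : Ideal B :=
  Ideal.span (φ '' {a : K | Coalgebra.counit (R := k) a = 0})

theorem hmA_J {M : ModuleCat.{u} B} (g : B →ₗ[k] M)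
    (hg : ∀ (a : K) (x : B), g (φ a * x) = φ a • g x) (j : B) (hj : j ∈ Jd φ) :
    hmA k M j g = 0 := by
  unfold Jd at hj
  induction hj using Submodule.span_induction with
  | mem x hx =>
    obtain ⟨a, ha, rfl⟩ := hx
    rw [hmA_inv φ g hg a, ha, zero_smul]
  | zero => rw [map_zero, LinearMap.zero_apply]
  | add x y _ _ hx hy => rw [map_add, LinearMap.add_apply, hx, hy, add_zero]
  | smul b x _ hx => rw [smul_eq_mul, map_mul, Module.End.mul_apply, hx, map_zero]

/-- Averaging elements. -/
structure Avg (φ : K →ₐc[k] B) (t : B) : Prop where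
  counit : Coalgebra.counit (R := k) t = 1
  mul : ∀ b : B, b * t - Coalgebra.counit (R := k) b • t ∈ Jd φ

theorem hmA_avg {M : ModuleCat.{u} B} (g : B →ₗ[k] M)
    (hg : ∀ (a : K) (x : B), g (φ a * x) = φ a • g x) {t : B} (ht : Avg φ t) (b : B) :
    (hmA k M t g) b = b • (hmA k M t g) 1 := by
  have h1 : ∀ c : B, hmA k M c (hmA k M t g) = Coalgebra.counit (R := k) c • hmA k M t g := by
    intro c
    have h2 := hmA_J φ g hg _ (ht.mul c)
    rw [map_sub, LinearMap.sub_apply, sub_eq_zero, map_mul, Module.End.mul_apply, map_smul,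
      LinearMap.smul_apply] at h2
    exact h2
  rw [← ev2_comul]
  have h3 : ∀ s : B ⊗[k] B, ev2 (hmA k M t g) s = (hmA k M t g)
      (TensorProduct.lid k B ((Coalgebra.counit (R := k)).rTensor B s)) := by
    intro s
    induction s using TensorProduct.induction_on with
    | zero => simp
    | add s s' hs hs' => simp only [map_add, hs, hs']
    | tmul c d =>
      rw [ev2_tmul, h1, LinearMap.rTensor_tmul, TensorProduct.lid_tmul, LinearMap.smul_apply,
        map_smul]
  rw [h3, Coalgebra.rTensor_counit_comul, TensorProduct.lid_tmul, one_smul]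

/-- A `K`-linear map with values in a `B`-module. -/
noncomputable def toM {M : ModuleCat.{u} B}
    (g : CoT (φ : K →ₐ[k] B) ((res (φ : K →ₐ[k] B)).obj M)) : B →ₗ[k] M where
  toFun x := (show M from g.fn x)
  map_add' x y := map_add g.fn x y
  map_smul' c x := by
    have h : g.fn (c • x) = c • g.fn x := map_smul g.fn c x
    refine h.trans ?_
    change φ (algebraMap k K c) • (show M from g.fn x) = c • (show M from g.fn x)
    rw [AlgHomClass.commutes, algebraMap_smul]

theorem toM_apply {M : ModuleCat.{u} B}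
    (g : CoT (φ : K →ₐ[k] B) ((res (φ : K →ₐ[k] B)).obj M)) (x : B) :
    toM φ g x = g.fn x := rfl

theorem toM_inv {M : ModuleCat.{u} B}
    (g : CoT (φ : K →ₐ[k] B) ((res (φ : K →ₐ[k] B)).obj M)) (a : K) (x : B) :
    toM φ g (φ a * x) = φ a • toM φ g x := g.fn_mul a x

theorem toM_add {M : ModuleCat.{u} B}
    (g g' : CoT (φ : K →ₐ[k] B) ((res (φ : K →ₐ[k] B)).obj M)) :
    toM φ (g + g') = toM φ g + toM φ g' := rfl

theorem toM_smul {M : ModuleCat.{u} B}
    (b : B) (g : CoT (φ : K →ₐ[k] B) ((res (φ : K →ₐ[k] B)).obj M)) :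
    toM φ (b • g) = toM φ g ∘ₗ LinearMap.mulRight k b := rfl

/-- The retraction `Hom_K(B, M) → M`. -/
noncomputable def sig {t : B} (ht : Avg φ t) :
    res (φ : K →ₐ[k] B) ⋙ co (φ : K →ₐ[k] B) ⟶ 𝟭 (ModuleCat.{u} B) where
  app M := ModuleCat.ofHom (X := ((res (φ : K →ₐ[k] B) ⋙ co (φ : K →ₐ[k] B)).obj M))
    { toFun := fun g => (hmA k M t (toM φ g)) 1
      map_add' := fun g g' => by
        change (hmA k M t (toM φ g + toM φ g')) 1 = _
        rw [map_add, LinearMap.add_apply]
      map_smul' := fun b g => by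
        change (hmA k M t (toM φ g ∘ₗ LinearMap.mulRight k b)) 1 = b • (hmA k M t (toM φ g)) 1
        rw [← hmA_avg φ (toM φ g) (toM_inv φ g) ht b, hmA_apply, hmA_apply, hm2_right, one_mul] }
  naturality {M N} f := by
    refine ConcreteCategory.hom_ext _ _ fun g => ?_
    exact (LinearMap.congr_fun (hm2_nat f (Coalgebra.comul (R := k) t) (toM φ g)) 1).symm

/-- `sig` is a retraction of the unit. -/
theorem coUnit_sig {t : B} (ht : Avg φ t) (M : ModuleCat.{u} B) :
    (coUnit (φ : K →ₐ[k] B)).app M ≫ (sig φ ht).app M = 𝟙 M := by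
  refine ConcreteCategory.hom_ext _ _ fun m => ?_
  change (hmA k M t (LinearMap.toSpanSingleton B M m |>.restrictScalars k)) 1 = m
  have h1 : ∀ s : B ⊗[k] B, hm2 M s (LinearMap.toSpanSingleton B M m |>.restrictScalars k) 1 =
      LinearMap.mul' k B ((HopfAlgebra.antipode k).lTensor B s) • m := by
    intro s
    induction s using TensorProduct.induction_on with
    | zero => simp
    | add s t hs ht => simp only [map_add, LinearMap.add_apply, hs, ht, add_smul]
    | tmul b c =>
      rw [hm2_tmul, hm_apply, LinearMap.lTensor_tmul, LinearMap.mul'_apply, mul_smul, mul_one]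
      rfl
  rw [hmA_apply, h1, HopfAlgebra.mul_antipode_lTensor_comul_apply, ht.counit, map_one, one_smul]

end

end Pool.Agent.Helper56.SS
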