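import Pool.Agent.Helper56.SS.Dual
import Pool.Agent.Helper56.SS.NZ

/-!
# Colinear sections
-/

set_option linter.unusedSectionVars false
set_option autoImplicit false

open scoped TensorProduct
open Pool.Agent.Helper59.FG Pool.Agent.Helper90.FC

namespace Pool.Agent.Helper56.SS

universe u

section

attribute [local instance] instRsAdd instRsMod instRsModK instRsTower instRsFin

variable {k : Type u} [Field k]

/-- A finite-dimensional Hopf subalgebra is a left linear retract. -/
theorem exists_retr {K H : Type u} [Ring K] [Ring H] [HopfAlgebra k K] [HopfAlgebra k H]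
    [Module.Finite k K] (φ : K →ₐc[k] H) (hφ : Function.Injective φ) :
    ∃ r : H →ₗ[k] K, (∀ x, r (φ x) = x) ∧ ∀ x y, r (φ x * y) = x * r y := by
  let f : K →ₗ[K] Rs φ H :=
    { toFun := fun a => (show Rs φ H from φ a)
      map_add' := fun a b => map_add φ a b
      map_smul' := fun a b => by
        change φ (a * b) = φ a * φ b
        exact map_mul φ a b }
  obtain ⟨p, hp⟩ := inj_split (self_injective k K) f hφ
  refine ⟨{ toFun := fun y => p (show Rs φ H from y)
            map_add' := fun x y => map_add p x y
            map_smul' := fun c x => ?_ }, hp, fun x y => ?_⟩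
  · have h := map_smul (p.restrictScalars k) c (show Rs φ H from x)
    exact h
  · exact map_smul p x (show Rs φ H from y)

/-- Tensors are separated by the functionals on the first factor. -/
theorem tens_ext {V W : Type u} [AddCommGroup V] [Module k V] [AddCommGroup W] [Module k W]
    [Module.Finite k V] (t t' : V ⊗[k] W)
    (h : ∀ f : V →ₗ[k] k, TensorProduct.lid k W (f.rTensor W t) =
      TensorProduct.lid k W (f.rTensor W t')) : t = t' := by
  let b := Module.Free.chooseBasis k V
  have h1 : ∀ t : V ⊗[k] W, ∑ i, b i ⊗ₜ[k] TensorProduct.lid k W ((b.coord i).rTensor W t) =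
      t := by
    intro t
    induction t with
    | zero => simp
    | add x y hx hy => simp only [map_add, TensorProduct.tmul_add, Finset.sum_add_distrib, hx, hy]
    | tmul v w =>
      have h2 : ∀ i, b i ⊗ₜ[k] TensorProduct.lid k W ((b.coord i).rTensor W (v ⊗ₜ[k] w)) =
          (b.coord i v • b i) ⊗ₜ[k] w := by
        intro i
        rw [LinearMap.rTensor_tmul, TensorProduct.lid_tmul, TensorProduct.tmul_smul,
          TensorProduct.smul_tmul']
      simp only [h2]
      rw [← TensorProduct.sum_tmul]
      congr 1
      exact b.sum_repr v
  rw [← h1 t, ← h1 t']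
  exact Finset.sum_congr rfl fun i _ => by rw [h]

variable {B C : Type u} [Ring B] [Ring C] [HopfAlgebra k B] [HopfAlgebra k C]
    [Module.Finite k B] [Module.Finite k C]

theorem finD (k : Type u) [Field k] (A : Type u) [Ring A] [HopfAlgebra k A] [Module.Finite k A] :
    Module.Finite k (HD k A) := by
  let f : (A →ₗ[k] k) →ₗ[k] HD k A :=
    { toFun := fun x => WithConv.toConv x
      map_add' := fun _ _ => rfl
      map_smul' := fun _ _ => rfl }
  exact Module.Finite.of_surjective f (fun x => ⟨x.ofConv, rfl⟩)

/-- Colinear sections exist. -/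
theorem exists_sec (p : B →ₐc[k] C) (hp : Function.Surjective p) :
    ∃ s : C →ₗ[k] B, (∀ c, p (s c) = c) ∧
      ∀ c, (p : B →ₗ[k] C).rTensor B (Coalgebra.comul (R := k) (s c)) =
        s.lTensor C (Coalgebra.comul (R := k) c) := by
  have hinj : Function.Injective (HDmap p) := by
    intro f g h
    apply DualB_ev_ext
    intro c
    obtain ⟨b, rfl⟩ := hp c
    rw [← HDmap_apply, ← HDmap_apply, h]
  have := finD k C
  obtain ⟨r, hr1, hr2⟩ := exists_retr (HDmap p) hinj
  let s0 : C →ₗ[k] Module.Dual k (Module.Dual k B) :=
    { toFun := fun c =>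
        { toFun := fun h => (r (WithConv.toConv h)).ofConv c
          map_add' := fun h h' => by
            have e : WithConv.toConv (h + h') = (WithConv.toConv h + WithConv.toConv h' : HD k B) :=
              rfl
            rw [e, map_add]
            rfl
          map_smul' := fun a h => by
            have e : WithConv.toConv (a • h) = (a • WithConv.toConv h : HD k B) := rfl
            rw [e, map_smul]
            rfl }
      map_add' := fun c c' => LinearMap.ext fun h =>
        map_add (r (WithConv.toConv h)).ofConv c c'
      map_smul' := fun a c => LinearMap.ext fun h =>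
        map_smul (r (WithConv.toConv h)).ofConv a c }
  let s : C →ₗ[k] B := (Module.evalEquiv k B).symm.toLinearMap ∘ₗ s0
  have hs : ∀ (h : HD k B) (c : C), h.ofConv (s c) = (r h).ofConv c := by
    intro h c
    have h1 : Module.evalEquiv k B (s c) = s0 c := (Module.evalEquiv k B).apply_symm_apply _
    have h2 := LinearMap.congr_fun h1 h.ofConv
    exact h2
  have hsep : ∀ {V : Type u} [AddCommGroup V] [Module k V] (v w : V),
      (∀ f : V →ₗ[k] k, f v = f w) → v = w := by
    intro V _ _ v w h
    refine sub_eq_zero.1 ((Module.forall_dual_apply_eq_zero_iff k (v - w)).1 fun f => ?_)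
    rw [map_sub, h f, sub_self]
  refine ⟨s, fun c => ?_, fun c => ?_⟩
  · refine hsep _ _ fun f => ?_
    have h1 := hs (HDmap p (WithConv.toConv f)) c
    rw [HDmap_apply, hr1] at h1
    exact h1
  · refine tens_ext _ _ fun f => hsep _ _ fun g => ?_
    have e1 : ∀ t : B ⊗[k] B, g (TensorProduct.lid k B (f.rTensor B
        ((p : B →ₗ[k] C).rTensor B t))) = LinearMap.mul' k k (TensorProduct.map
          (f ∘ₗ (p : B →ₗ[k] C)) g t) := by
      intro t
      induction t with
      | zero => simp
      | add x y hx hy => simp only [map_add, hx, hy]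
      | tmul x y => simp
    have e2 : ∀ t : C ⊗[k] C, g (TensorProduct.lid k B (f.rTensor B (s.lTensor C t))) =
        LinearMap.mul' k k (TensorProduct.map f (r (WithConv.toConv g)).ofConv t) := by
      intro t
      induction t with
      | zero => simp
      | add x y hx hy => simp only [map_add, hx, hy]
      | tmul x y =>
        rw [TensorProduct.map_tmul, LinearMap.mul'_apply, ← hs (WithConv.toConv g) y,
          LinearMap.lTensor_tmul, LinearMap.rTensor_tmul, TensorProduct.lid_tmul, map_smul]
        rfl
    rw [e1, e2]
    have h1 := hs (HDmap p (WithConv.toConv f) * WithConv.toConv g) c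
    rw [hr2] at h1
    exact h1

end

end Pool.Agent.Helper56.SS
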