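import Pool.Agent.Helper56.SS.Co
import Pool.Agent.Helper56.SS.NZ
import Pool.Agent.Helper90.FC.IHom
import Pool.Agent.Helper90.FC.EvLem

/-!
# Finite generation of cohomology passes to Hopf subalgebras

Let `φ : K → H` be a homomorphism of finite-dimensional bialgebras such that `H` is a projective
`K`-module. If `H` satisfies the finite generation property then so does `K`.
-/

set_option linter.unusedSectionVars false
set_option autoImplicit false

open CategoryTheory CategoryTheory.Abelian CategoryTheory.Limits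
open scoped ModuleCat TensorProduct
open Pool.Agent.Helper59.FG Pool.Agent.Helper90.FC

namespace Pool.Agent.Helper56.SS

universe u

section

variable {k : Type u} [Field k] {K H : Type u} [Ring K] [Ring H] [Bialgebra k K] [Bialgebra k H]
variable (φ : K →ₐ[k] H)

theorem co_triangle (M : ModuleCat.{u} H) :
    (res φ).map ((coUnit φ).app M) ≫ (coCounit φ).app ((res φ).obj M) = 𝟙 _ := by
  refine ConcreteCategory.hom_ext _ _ fun m => ?_
  exact one_smul H (show M from m)

/-- The class of `Ext_H(k, Hom_K(H, M))` defined by a class in `Ext_K(k, M)`. -/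
noncomputable def coCls [PreservesFiniteLimits (co φ)] [PreservesFiniteColimits (co φ)]
    (hφ : Aug φ) {M : ModuleCat.{u} K} {n : ℕ} (x : Ext (trivObj k K) M n) :
    Ext (trivObj k H) ((co φ).obj M) n :=
  (Ext.mk₀ ((coUnit φ).app (trivObj k H) ≫ (co φ).map (inv (resTriv φ hφ)))).comp
    (x.mapExactFunctor (co φ)) (zero_add n)

theorem rs_coCls [PreservesFiniteLimits (co φ)] [PreservesFiniteColimits (co φ)]
    (hφ : Aug φ) {M : ModuleCat.{u} K} {n : ℕ} (x : Ext (trivObj k K) M n) :
    (rs φ hφ (coCls φ hφ x)).comp (Ext.mk₀ ((coCounit φ).app M)) (add_zero n) = x := by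
  have h1 : ((x.mapExactFunctor (co φ)).mapExactFunctor (res φ)).comp
      (Ext.mk₀ ((coCounit φ).app M)) (add_zero n) =
        (Ext.mk₀ ((coCounit φ).app (trivObj k K))).comp x (zero_add n) := by
    have h := nat0 (coCounit φ) x
    rw [mapId, mapComp] at h
    exact h
  have h2 : resTriv φ hφ ≫ (res φ).map ((coUnit φ).app (trivObj k H) ≫
      (co φ).map (inv (resTriv φ hφ))) ≫ (coCounit φ).app (trivObj k K) = 𝟙 _ := by
    have h3 : (res φ).map ((co φ).map (inv (resTriv φ hφ))) ≫ (coCounit φ).app (trivObj k K) =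
        (coCounit φ).app ((res φ).obj (trivObj k H)) ≫ inv (resTriv φ hφ) :=
      (coCounit φ).naturality (inv (resTriv φ hφ))
    rw [Functor.map_comp, Category.assoc, h3, ← Category.assoc ((res φ).map _), co_triangle]
    have h4 : (𝟙 ((res φ).obj (trivObj k H))) ≫ inv (resTriv φ hφ) = inv (resTriv φ hφ) :=
      Category.id_comp _
    exact (congrArg (fun w => resTriv φ hφ ≫ w) h4).trans (IsIso.hom_inv_id _)
  unfold rs coCls
  rw [Ext.mapExactFunctor_comp, Ext.mapExactFunctor_mk₀, Ext.mk₀_comp_mk₀_assoc,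
    Ext.comp_assoc_of_third_deg_zero, h1, Ext.mk₀_comp_mk₀_assoc, Category.assoc, h2,
    Ext.mk₀_id_comp]

/-- Finite generation passes along `K → H` if `H` is projective over `K`. -/
theorem fge_sub [Module.Finite k K] [Module.Finite k H] (hφ : Aug φ)
    (hP : Module.Projective K ((res φ).obj (ModuleCat.of H H))) (h : FGE k H) : FGE k K := by
  have := co_lim φ hP
  have := co_colim φ hP
  obtain ⟨r, ζ, hζ⟩ := h
  refine ⟨r, ζ.res φ hφ, fun M hM => ?_⟩
  obtain ⟨N, hN⟩ := hζ ((co φ).obj M) (co_finite φ M hM)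
  refine ⟨N, fun n hn => ?_⟩
  rw [eq_top_iff]
  intro x _
  let L : Ext (trivObj k H) ((co φ).obj M) n →ₗ[k] Ext (trivObj k K) M n :=
    { toFun := fun y => (rs φ hφ y).comp (Ext.mk₀ ((coCounit φ).app M)) (add_zero n)
      map_add' := fun y z => by rw [rs_add, Ext.add_comp]
      map_smul' := fun c y => by rw [rs_smul, Ext.smul_comp, RingHom.id_apply] }
  have h1 : ζ.gen ((co φ).obj M) n ≤ ((ζ.res φ hφ).gen M n).comap L := by
    rw [Fam.gen_le_iff]
    intro i m h y
    change (rs φ hφ ((ζ.cls i).comp y h)).comp (Ext.mk₀ ((coCounit φ).app M)) (add_zero n) ∈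
      (ζ.res φ hφ).gen M n
    rw [← rsE_comp, Ext.comp_assoc_of_third_deg_zero]
    exact (ζ.res φ hφ).mem_gen i h _
  have h2 : L (coCls φ hφ x) = x := rs_coCls φ hφ x
  rw [← h2]
  exact h1 (by rw [hN n hn]; exact Submodule.mem_top)

end

section

variable {k : Type u} [Field k] {K H : Type u} [Ring K] [Ring H] [HopfAlgebra k K]
  [HopfAlgebra k H] [Module.Finite k K] [Module.Finite k H]

theorem proj_res (φ : K →ₐc[k] H) (hφ : Function.Injective φ) :
    Module.Projective K ((res (φ : K →ₐ[k] H)).obj (ModuleCat.of H H)) := nz φ hφ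

/-- The finite generation property passes to Hopf subalgebras. -/
theorem fge_hopfSub (φ : K →ₐc[k] H) (hφ : Function.Injective φ) (h : FGE k H) : FGE k K :=
  fge_sub (φ : K →ₐ[k] H) (aug_of_bialg φ) (proj_res φ hφ) h

end

end Pool.Agent.Helper56.SS
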