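import Pool.Agent.Helper56.SS.StepsSlim
import Pool.Agent.Helper56.SS.Steps
import Pool.Agent.Helper49.FS.Bridge

/-! The definitions of `StepsSlim.lean` agree with those of `StepsDefs.lean`. -/

set_option autoImplicit false

open Pool.Agent.Helper49.FS

namespace Pool.Agent.Helper56.SSlim

universe u

section

variable {k : Type u} [Field k] {A B C D : Type u} [Ring A] [Ring B] [Ring C] [Ring D]
  [HopfAlgebra k A] [HopfAlgebra k B] [HopfAlgebra k C] [HopfAlgebra k D]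

theorem hopfExact_iff {ι : A →ₐc[k] B} {π : B →ₐc[k] C} :
    HopfExact k ι π ↔ SS.HopfExact k ι π :=
  ⟨fun ⟨h1, h2, h3⟩ => ⟨h1, h2, h3⟩, fun ⟨h1, h2, h3⟩ => ⟨h1, h2, h3⟩⟩

theorem adR_eq (x b : B) : adR k x b = Pool.Agent.Helper90.UN.adj k b x := rfl

theorem actsThrough_iff {ι : A →ₐc[k] B} {q : B →ₐc[k] D} :
    ActsThrough k ι q ↔ SS.ActsThrough k ι q :=
  ⟨fun ⟨h1, h2⟩ => ⟨h1, h2⟩, fun ⟨h1, h2⟩ => ⟨h1, h2⟩⟩

end

theorem steps_of {k : Type u} [Field k] {C : Type u} [Ring C] [HopfAlgebra k C]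
    {B : Type u} [Ring B] [HopfAlgebra k B] (h : Steps k C B) : SS.Steps k C B := by
  induction h with
  | refl => exact .refl
  | act A B B' D e _ ih =>
    obtain ⟨ι, π, q, h1, h2⟩ := e
    exact .act ι π q (hopfExact_iff.1 h1) (actsThrough_iff.1 h2) ih
  | ker A B B' e _ ih =>
    obtain ⟨ι, π, h1⟩ := e
    exact .ker ι π (hopfExact_iff.1 h1) ih
  | quot A B D e _ ih =>
    obtain ⟨ι, π, h1⟩ := e
    exact .quot ι π (hopfExact_iff.1 h1) ih
  | sub B B' e _ ih =>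
    obtain ⟨j, h1⟩ := e
    exact .sub j h1 ih

theorem fgc_of_steps {k : Type u} [Field k] {C : Type u} [Ring C] [HopfAlgebra k C]
    {B : Type u} [Ring B] [HopfAlgebra k B] [Module.Finite k B] (h : Steps k C B)
    (hC : FGC k C) : FGC k B :=
  (fgc_iff k B).2 (SS.steps_fgc ((fgc_iff k C).1 hC) (steps_of h) inferInstance)

end Pool.Agent.Helper56.SSlim
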