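import Pool.Agent.Helper49.FS.Twist

/-!
# Hopf algebras built from `C` by extensions with semisimple action: definitions

`adR k x b = ∑ b₁ x S(b₂)` is the left adjoint action of `B` on itself, `HopfExact k ι π` says that
`k → A → B → C → k` is exact (`Pool/Agent/Helper49/FS/Twist.lean`).
-/

set_option autoImplicit false

open Pool.Agent.Helper49.FS

namespace Pool.Agent.Helper56.SSlim

universe u

section

variable (k : Type u) [Field k] {A B C D : Type u} [Ring A] [Ring B] [Ring C] [Ring D]
  [HopfAlgebra k A] [HopfAlgebra k B] [HopfAlgebra k C] [HopfAlgebra k D]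

/-- `B` acts on `ι(A)` through the quotient Hopf algebra `q : B → D`: `q` is surjective and all
elements of its kernel act by zero on `ι(A)` in the adjoint action. -/
def ActsThrough (ι : A →ₐc[k] B) (q : B →ₐc[k] D) : Prop :=
  Function.Surjective q ∧ ∀ b : B, q b = 0 → ∀ a : A, adR k (ι a) b = 0

variable (A B C)

/-- there is an exact sequence `A → B → C` -/
def Exact : Prop := ∃ (ι : A →ₐc[k] B) (π : B →ₐc[k] C), HopfExact k ι π

/-- there is an injective homomorphism `B → C` -/
def Sub : Prop := ∃ j : B →ₐc[k] C, Function.Injective j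

variable (D)

/-- there is an exact sequence `A → B → C` such that `B` acts on `A` through a quotient Hopf algebra
`B → D` -/
def ExactActing : Prop :=
  ∃ (ι : A →ₐc[k] B) (π : B →ₐc[k] C) (q : B →ₐc[k] D), HopfExact k ι π ∧ ActsThrough k ι q

end

/-- `Steps k C B`: the Hopf algebra `B` is reached from the Hopf algebra `C` by finitely many steps
of the following kinds. -/
inductive Steps (k : Type u) [Field k] (C : Type u) [Ring C] [HopfAlgebra k C] :
    (B : Type u) → [Ring B] → [HopfAlgebra k B] → Prop
  /-- no step -/
  | refl : Steps k C C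
  /-- from `B'` to `B` in an exact sequence `A → B → B'`, if `B` acts on `A` through a semisimple
  quotient Hopf algebra `D` -/
  | act (A B B' D : Type u) [Ring A] [Ring B] [Ring B'] [Ring D] [HopfAlgebra k A]
      [HopfAlgebra k B] [HopfAlgebra k B'] [HopfAlgebra k D] [IsSemisimpleRing D]
      (e : ExactActing k A B B' D) (h : Steps k C B') : Steps k C B
  /-- from `B'` to `B` in an exact sequence `A → B → B'`, if `A` is semisimple -/
  | ker (A B B' : Type u) [Ring A] [Ring B] [Ring B'] [HopfAlgebra k A] [HopfAlgebra k B]
      [HopfAlgebra k B'] [IsSemisimpleRing A] (e : Exact k A B B') (h : Steps k C B') : Steps k C B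
  /-- from `A` to `B` in an exact sequence `A → B → D`, if `D` is semisimple -/
  | quot (A B D : Type u) [Ring A] [Ring B] [Ring D] [HopfAlgebra k A] [HopfAlgebra k B]
      [HopfAlgebra k D] [IsSemisimpleRing D] (e : Exact k A B D) (h : Steps k C A) : Steps k C B
  /-- from a finite-dimensional Hopf algebra `B'` to a Hopf subalgebra `B` -/
  | sub (B B' : Type u) [Ring B] [Ring B'] [HopfAlgebra k B] [HopfAlgebra k B']
      [Module.Finite k B'] (e : Sub k B B') (h : Steps k C B') : Steps k C B

end Pool.Agent.Helper56.SSlim
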